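import Pool.Agent.Q163.RX.Mgf
import Pool.Agent.Q163.RX.Gen

/-! The inequality of Rademacher and Menshov, almost sure form. -/

set_option autoImplicit false

namespace Pool.Agent.Q163.PM

open Finset MeasureTheory ProbabilityTheory Filter Topology Pool.Agent.Q163.RP Pool.Agent.Q163.RX

/-- the sum over a block -/
noncomputable def bl (x : ℕ → ℝ) (a b : ℕ) : ℝ := ∑ j ∈ Ico a b, x j

/-- the sum of the squares of the dyadic blocks -/
noncomputable def DD (x : ℕ → ℝ) : ℕ → ℕ → ℝ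
  | 0, a => x a ^ 2
  | r + 1, a => DD x r a + DD x r (a + 2 ^ r) + bl x a (a + 2 ^ (r + 1)) ^ 2

lemma DD_nonneg (x : ℕ → ℝ) (r a : ℕ) : 0 ≤ DD x r a := by
  induction r generalizing a with
  | zero => exact sq_nonneg _
  | succ r ih =>
    have h1 := ih a
    have h2 := ih (a + 2 ^ r)
    simp only [DD]
    positivity

lemma bl_sq_le (x : ℕ → ℝ) (r a : ℕ) : bl x a (a + 2 ^ r) ^ 2 ≤ DD x r a := by
  cases r with
  | zero => simp [bl, DD]
  | succ r =>
    simp only [DD]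
    have h1 := DD_nonneg x r a
    have h2 := DD_nonneg x r (a + 2 ^ r)
    linarith

lemma bl_le (x : ℕ → ℝ) (r : ℕ) : ∀ a n : ℕ, n ≤ 2 ^ r → bl x a (a + n) ^ 2 ≤ ((r : ℝ) + 1) * DD x r a := by
  induction r with
  | zero =>
    intro a n hn
    have h1 : n = 0 ∨ n = 1 := by
      have : n ≤ 1 := by simpa using hn
      omega
    rcases h1 with rfl | rfl
    · simp [bl, DD, sq_nonneg]
    · simp [bl, DD]
  | succ r ih =>
    intro a n hn
    have h1 := DD_nonneg x r a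
    have h2 := DD_nonneg x r (a + 2 ^ r)
    have hr : (0 : ℝ) ≤ r := Nat.cast_nonneg _
    have h3 : ((r : ℝ) + 2) * (DD x r a + DD x r (a + 2 ^ r)) ≤ ((r + 1 : ℕ) + 1 : ℝ) * DD x (r + 1) a := by
      simp only [DD]
      push_cast
      have h4 := sq_nonneg (bl x a (a + 2 ^ (r + 1)))
      nlinarith
    refine le_trans ?_ h3
    rcases le_or_gt n (2 ^ r) with h | h
    · refine (ih a n h).trans ?_
      nlinarith
    · obtain ⟨m, rfl⟩ : ∃ m, n = 2 ^ r + m := ⟨n - 2 ^ r, by omega⟩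
      have hm : m ≤ 2 ^ r := by
        rw [pow_succ] at hn
        omega
      have h4 : bl x a (a + (2 ^ r + m)) = bl x a (a + 2 ^ r) + bl x (a + 2 ^ r) (a + 2 ^ r + m) := by
        unfold bl
        rw [sum_Ico_consecutive _ (by omega) (by omega), add_assoc]
      have h5 := ih (a + 2 ^ r) m hm
      have h6 := bl_sq_le x r a
      rw [h4]
      obtain ⟨u, hu⟩ : ∃ u, u = bl x a (a + 2 ^ r) := ⟨_, rfl⟩
      obtain ⟨v, hv⟩ : ∃ v, v = bl x (a + 2 ^ r) (a + 2 ^ r + m) := ⟨_, rfl⟩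
      rw [← hu] at h6 ⊢
      rw [← hv] at h5 ⊢
      have h7 : ((r : ℝ) + 1) * (u + v) ^ 2 ≤ ((r : ℝ) + 1) * (((r : ℝ) + 2) * (DD x r a + DD x r (a + 2 ^ r))) := by
        have h8 : ((r : ℝ) + 1) * (u + v) ^ 2 ≤ ((r : ℝ) + 1) * ((r : ℝ) + 2) * u ^ 2 + ((r : ℝ) + 2) * v ^ 2 := by
          nlinarith [sq_nonneg (((r : ℝ) + 1) * u - v)]
        have h9 := mul_le_mul_of_nonneg_left h5 (by positivity : (0 : ℝ) ≤ (r : ℝ) + 2)
        have h10 := mul_le_mul_of_nonneg_left h6 (by positivity : (0 : ℝ) ≤ ((r : ℝ) + 1) * ((r : ℝ) + 2))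
        linarith
      exact le_of_mul_le_mul_left h7 (by positivity)

/-- **The inequality of Rademacher and Menshov**, almost sure form for functions of coins. -/
theorem rm (X : ℕ → (ℕ → Bool) → ℝ) (hm : ∀ j, Measurable (X j)) (hb : ∀ j ω, |X j ω| ≤ 1) (K : ℝ)
    (hE : ∀ a b : ℕ, a ≤ b → ∫ ω, bl (fun j => X j ω) a b ^ 2 ∂cm ≤ K * (b - a : ℕ)) :
    ∀ᵐ ω ∂cm, ∃ C : ℝ, ∀ N : ℕ, |∑ j ∈ range N, X j ω| ≤ C * (Real.sqrt N * Real.log (N + 1) ^ 2) := by
  have hmB : ∀ a b, Measurable fun ω => bl (fun j => X j ω) a b := fun a b =>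
    Finset.measurable_fun_sum _ fun j _ => hm j
  have hbB : ∀ a b ω, |bl (fun j => X j ω) a b| ≤ (b - a : ℕ) := by
    intro a b ω
    refine (abs_sum_le_sum_abs _ _).trans ((sum_le_sum fun j _ => hb j ω).trans ?_)
    simp
  have hiB : ∀ a b, Integrable (fun ω => bl (fun j => X j ω) a b ^ 2) cm := fun a b =>
    Integrable.of_bound ((hmB a b).pow_const _).aestronglyMeasurable (((b - a : ℕ) : ℝ) ^ 2)
      (Eventually.of_forall fun ω => by
        rw [Real.norm_eq_abs, abs_pow]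
        exact pow_le_pow_left₀ (abs_nonneg _) (hbB a b ω) _)
  have hbl1 : ∀ a ω, bl (fun j => X j ω) a (a + 1) = X a ω := by
    intro a ω
    simp [bl]
  have hD : ∀ r a, Integrable (fun ω => DD (fun j => X j ω) r a) cm ∧
      ∫ ω, DD (fun j => X j ω) r a ∂cm ≤ K * (((r : ℝ) + 1) * 2 ^ r) := by
    intro r
    induction r with
    | zero =>
      intro a
      have h1 := hE a (a + 1) (by omega)
      have h2 := hiB a (a + 1)
      simp_rw [hbl1] at h1 h2
      refine ⟨h2, ?_⟩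
      simp only [DD]
      simpa using h1
    | succ r ih =>
      intro a
      obtain ⟨h1, h2⟩ := ih a
      obtain ⟨h3, h4⟩ := ih (a + 2 ^ r)
      have h5 := hiB a (a + 2 ^ (r + 1))
      have h6 := hE a (a + 2 ^ (r + 1)) (Nat.le_add_right _ _)
      have h13 : Integrable (fun ω => DD (fun j => X j ω) r a + DD (fun j => X j ω) r (a + 2 ^ r)) cm := h1.add h3
      refine ⟨h13.add h5, ?_⟩
      simp only [DD]
      rw [integral_add h13 h5, integral_add h1 h3]
      rw [Nat.add_sub_cancel_left] at h6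
      push_cast at h6 ⊢
      have e1 : (2 : ℝ) ^ (r + 1) = 2 * 2 ^ r := by ring
      have e2 : K * (((r : ℝ) + 1 + 1) * 2 ^ (r + 1)) =
          K * (((r : ℝ) + 1) * 2 ^ r) + K * (((r : ℝ) + 1) * 2 ^ r) + K * 2 ^ (r + 1) := by
        rw [e1]
        ring
      linarith
  have hK : 0 ≤ K := by
    have h1 := hE 0 1 (by omega)
    have h2 : 0 ≤ ∫ ω, bl (fun j => X j ω) 0 1 ^ 2 ∂cm := integral_nonneg fun ω => sq_nonneg _
    have h3 := h2.trans h1
    simpa using h3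
  have h1 := bcf (fun _ => ({()} : Finset Unit))
    (fun r _ => {ω | (K + 1) * ((r : ℝ) + 1) ^ 3 * 2 ^ r < DD (fun j => X j ω) r 0}) (by
    filter_upwards [eventually_ge_atTop 1] with r hr t _
    have hrR : (1 : ℝ) ≤ r := by exact_mod_cast hr
    obtain ⟨hi, he⟩ := hD r 0
    have h2 := mul_meas_ge_le_integral_of_nonneg (μ := cm) (f := fun ω => DD (fun j => X j ω) r 0)
      (Eventually.of_forall fun ω => DD_nonneg _ _ _) hi ((K + 1) * ((r : ℝ) + 1) ^ 3 * 2 ^ r)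
    have h3 : cm.real {ω | (K + 1) * ((r : ℝ) + 1) ^ 3 * 2 ^ r < DD (fun j => X j ω) r 0} ≤
        cm.real {ω | (K + 1) * ((r : ℝ) + 1) ^ 3 * 2 ^ r ≤ DD (fun j => X j ω) r 0} :=
      measureReal_mono fun ω hω => by
        simp only [Set.mem_ofPred_eq] at hω ⊢
        exact hω.le
    refine h3.trans ?_
    have h4 := h2.trans he
    have hp : 0 < (K + 1) * ((r : ℝ) + 1) ^ 3 * 2 ^ r := by positivity
    rw [mul_comm, ← le_div_iff₀ hp] at h4
    refine h4.trans ?_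
    simp only [card_singleton, Nat.cast_one, one_mul]
    rw [div_le_div_iff₀ hp (by positivity)]
    have h5 : (r : ℝ) ^ 2 ≤ ((r : ℝ) + 1) ^ 2 := pow_le_pow_left₀ (by linarith) (by linarith) _
    have h6 : 0 ≤ ((r : ℝ) + 1) * 2 ^ r := by positivity
    calc K * (((r : ℝ) + 1) * 2 ^ r) * (r : ℝ) ^ 2 ≤ (K + 1) * (((r : ℝ) + 1) * 2 ^ r) * ((r : ℝ) + 1) ^ 2 := by
          refine mul_le_mul ?_ h5 (by positivity) (by positivity)
          exact mul_le_mul_of_nonneg_right (by linarith) h6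
      _ = 1 * ((K + 1) * ((r : ℝ) + 1) ^ 3 * 2 ^ r) := by ring
      _ ≤ _ := by linarith)
  filter_upwards [h1] with ω hω
  obtain ⟨r0, hr0⟩ := eventually_atTop.1 hω
  have hS : ∀ N : ℕ, ∑ j ∈ range N, X j ω = bl (fun j => X j ω) 0 (0 + N) := by
    intro N
    simp [bl]
  obtain ⟨A, hA⟩ : ∃ A : ℝ, A = 3 + 1 / Real.log 2 := ⟨_, rfl⟩
  have hl2 : 0 < Real.log 2 := Real.log_pos (by norm_num)
  have hl2' : Real.log 2 < 1 := by
    have := Real.log_two_lt_d9
    linarith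
  have hA0 : 0 < A := by
    rw [hA]
    positivity
  refine ⟨Real.sqrt (2 * (K + 1)) * (A / Real.log 2) ^ 2 + (2 : ℝ) ^ r0 / Real.log 2 ^ 2, fun N => ?_⟩
  rcases Nat.eq_zero_or_pos N with rfl | hN
  · simp
  have hNR : (1 : ℝ) ≤ N := by exact_mod_cast hN
  have hsN : 1 ≤ Real.sqrt N := Real.one_le_sqrt.2 hNR
  have hlN : Real.log 2 ≤ Real.log (N + 1) := Real.log_le_log (by norm_num) (by linarith)
  have hlN0 : 0 < Real.log (N + 1) := hl2.trans_le hlN
  have hC0 : 0 ≤ Real.sqrt (2 * (K + 1)) * (A / Real.log 2) ^ 2 := by positivity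
  have hC1 : 0 ≤ (2 : ℝ) ^ r0 / Real.log 2 ^ 2 := by positivity
  -- `2 ^ (r - 1) ≤ N ≤ 2 ^ r`
  obtain ⟨r, hr⟩ : ∃ r, r = Nat.log 2 N := ⟨_, rfl⟩
  have h3 : 2 ^ r ≤ N := by
    rw [hr]
    exact Nat.pow_log_le_self 2 (by omega)
  have h4 : N < 2 ^ (r + 1) := by
    rw [hr]
    exact Nat.lt_pow_succ_log_self (by norm_num) N
  have h3R : (2 : ℝ) ^ r ≤ N := by exact_mod_cast h3
  rcases lt_or_ge (r + 1) r0 with h0 | h0
  · have h5 : |∑ j ∈ range N, X j ω| ≤ N := by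
      rw [hS]
      refine (hbB _ _ ω).trans ?_
      simp
    have h6 : (N : ℝ) ≤ 2 ^ r0 := by
      have h7 : N ≤ 2 ^ r0 := h4.le.trans (Nat.pow_le_pow_right (by norm_num) h0.le)
      exact_mod_cast h7
    have h7 : 1 ≤ Real.sqrt N * (Real.log (N + 1) ^ 2 / Real.log 2 ^ 2) := by
      refine one_le_mul_of_one_le_of_one_le hsN ?_
      rw [le_div_iff₀ (by positivity), one_mul]
      exact pow_le_pow_left₀ hl2.le hlN 2
    calc |∑ j ∈ range N, X j ω| ≤ 2 ^ r0 * 1 := by linarith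
      _ ≤ 2 ^ r0 * (Real.sqrt N * (Real.log (N + 1) ^ 2 / Real.log 2 ^ 2)) :=
          mul_le_mul_of_nonneg_left h7 (by positivity)
      _ = (2 : ℝ) ^ r0 / Real.log 2 ^ 2 * (Real.sqrt N * Real.log (N + 1) ^ 2) := by ring
      _ ≤ _ := mul_le_mul_of_nonneg_right (by linarith) (by positivity)
  · have h5 := hr0 (r + 1) h0 () (mem_singleton_self _)
    simp only [not_lt] at h5
    have h6 := bl_le (fun j => X j ω) (r + 1) 0 N h4.le
    have hrl : (r : ℝ) * Real.log 2 ≤ Real.log (N + 1) := by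
      rw [← Real.log_pow]
      exact Real.log_le_log (by positivity) (by linarith)
    have h7 : ((r + 1 : ℕ) : ℝ) + 1 ≤ A / Real.log 2 * Real.log (N + 1) := by
      rw [div_mul_eq_mul_div, le_div_iff₀ hl2, hA]
      push_cast
      have h8 : 2 * Real.log 2 ≤ 2 * Real.log (N + 1) := by linarith
      have h9 : 0 ≤ 1 / Real.log 2 * Real.log (N + 1) := by positivity
      nlinarith
    have h8 : bl (fun j => X j ω) 0 (0 + N) ^ 2 ≤
        (Real.sqrt (2 * (K + 1)) * (A / Real.log 2) ^ 2 * (Real.sqrt N * Real.log (N + 1) ^ 2)) ^ 2 := by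
      have h9 : (Real.sqrt (2 * (K + 1)) * (A / Real.log 2) ^ 2 * (Real.sqrt N * Real.log (N + 1) ^ 2)) ^ 2 =
          2 * (K + 1) * N * (A / Real.log 2 * Real.log (N + 1)) ^ 4 := by
        have h10 : Real.sqrt (2 * (K + 1)) ^ 2 = 2 * (K + 1) := Real.sq_sqrt (by positivity)
        have h11 : Real.sqrt (N : ℝ) ^ 2 = N := Real.sq_sqrt (by positivity)
        calc _ = Real.sqrt (2 * (K + 1)) ^ 2 * Real.sqrt (N : ℝ) ^ 2 * (A / Real.log 2 * Real.log (N + 1)) ^ 4 := by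
              ring
          _ = _ := by rw [h10, h11]
      rw [h9]
      refine h6.trans ?_
      have hr1 : (0 : ℝ) ≤ ((r + 1 : ℕ) : ℝ) + 1 := by positivity
      have h12 : (((r + 1 : ℕ) : ℝ) + 1) ^ 4 ≤ (A / Real.log 2 * Real.log (N + 1)) ^ 4 :=
        pow_le_pow_left₀ hr1 h7 4
      calc (((r + 1 : ℕ) : ℝ) + 1) * DD (fun j => X j ω) (r + 1) 0 ≤
            (((r + 1 : ℕ) : ℝ) + 1) * ((K + 1) * (((r + 1 : ℕ) : ℝ) + 1) ^ 3 * 2 ^ (r + 1)) :=
            mul_le_mul_of_nonneg_left h5 hr1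
        _ = 2 * (K + 1) * 2 ^ r * (((r + 1 : ℕ) : ℝ) + 1) ^ 4 := by ring
        _ ≤ 2 * (K + 1) * N * (A / Real.log 2 * Real.log (N + 1)) ^ 4 := by
            refine mul_le_mul ?_ h12 (by positivity) (by positivity)
            exact mul_le_mul_of_nonneg_left h3R (by positivity)
    rw [hS]
    refine (abs_le_of_sq_le_sq h8 (by positivity)).trans ?_
    exact mul_le_mul_of_nonneg_right (by linarith) (by positivity)

end Pool.Agent.Q163.PM
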