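import Pool.Agent.Q163.PM.Fam
import Pool.Agent.Q163.PM.Mens

/-! Almost sure bounds for character sums of linear functionals. -/

set_option autoImplicit false

namespace Pool.Agent.Q163.PM

open Finset MeasureTheory ProbabilityTheory Filter Topology Pool.Agent.Q163.RP Pool.Agent.Q163.RX

/-- every large number has many representations by elements of `T` -/
def Rich (T : Set ℕ) : Prop := ∀ θ : ℝ, 0 ≤ θ → θ < 1 → ∃ m0 : ℕ, ∀ m : ℕ, m0 ≤ m →
  ∃ J k : ℕ, Good T J k m ∧ ((k : ℝ) + 1) * θ ^ J * m ≤ 1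

/-- the error term -/
noncomputable def er (N : ℕ) : ℝ := Real.sqrt N * Real.log (N + 1) ^ 2

lemma er_nonneg (N : ℕ) : 0 ≤ er N := by
  unfold er
  positivity

lemma er_mono {N N' : ℕ} (h : N ≤ N') : er N ≤ er N' := by
  unfold er
  have h1 : (N : ℝ) ≤ N' := by exact_mod_cast h
  have h0 : (0 : ℝ) ≤ N := Nat.cast_nonneg _
  refine mul_le_mul (Real.sqrt_le_sqrt h1) ?_ (by positivity) (by positivity)
  refine pow_le_pow_left₀ (Real.log_nonneg (by linarith)) ?_ 2
  exact Real.log_le_log (by linarith) (by linarith)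

lemma er_one {N : ℕ} (h : 1 ≤ N) : Real.log 2 ^ 2 ≤ er N := by
  have h1 := er_mono h
  refine le_trans (le_of_eq ?_) h1
  unfold er
  norm_num

variable {M : ℕ} {T : Set ℕ} {q : (ℕ → Bool) → ℕ → ZMod M}

lemma L_add (q : (ℕ → Bool) → ℕ → ZMod M) (u v : ℕ → ZMod M) {a b : ℕ} (h : b ≤ a) (ε : ZMod M)
    (ω : ℕ → Bool) :
    L q v a ω + ε * L q u b ω = L q (fun i => v i + if i ≤ b then ε * u i else 0) a ω := by
  unfold L
  simp_rw [add_mul]
  rw [sum_add_distrib]
  congr 1
  have e1 : a + 1 = (b + 1) + (a - b) := by omega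
  rw [e1, sum_range_add _ (b + 1), mul_sum]
  have e2 : ∑ x ∈ range (a - b), (if b + 1 + x ≤ b then ε * u (b + 1 + x) else 0) * q ω (b + 1 + x) = 0 := by
    refine sum_eq_zero fun x _ => ?_
    rw [if_neg (by omega), zero_mul]
  rw [e2, add_zero]
  refine sum_congr rfl fun x hx => ?_
  rw [if_pos (by have := mem_range.1 hx; omega), mul_assoc]

variable [NeZero M]

/-- **The signs along an increasing sequence of functionals.** -/
theorem signs_ae (hq : Fam M T q) (hT : Rich T) (b : ℕ → ℕ) (hb : StrictMono b) (U : ℕ → ℕ → ZMod M)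
    (hU : ∀ j, U j (b j) ≠ 0) (κ : ℕ → ZMod M) :
    ∀ᵐ ω ∂cm, ∃ C : ℝ, ∀ N : ℕ, |∑ j ∈ range N, (ps (L q (U j) (b j) ω + κ j)).re| ≤ C * er N := by
  obtain ⟨θ, hθ0, hθ1, hθ⟩ := exists_theta M
  obtain ⟨m0, hm0⟩ := hT θ (by linarith) hθ1
  set X : ℕ → (ℕ → Bool) → ℝ := fun j ω => (ps (L q (U j) (b j) ω + κ j)).re with hX
  have hmZ : ∀ j, Measurable fun ω => ps (L q (U j) (b j) ω + κ j) := fun j =>
    L_meas hq (U j) (b j) fun x => ps (x + κ j)
  have hm : ∀ j, Measurable (X j) := fun j => L_meas hq (U j) (b j) fun x => (ps (x + κ j)).re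
  have hbd : ∀ j ω, |X j ω| ≤ 1 := fun j ω => re_abs _
  have h0R : (0 : ℝ) ≤ m0 := Nat.cast_nonneg _
  have hpair0 : ∀ i j : ℕ, i < j → m0 ≤ b j → ∀ ε : ZMod M,
      ‖∫ ω, ps ((L q (U j) (b j) ω + κ j) + ε * (L q (U i) (b i) ω + κ i)) ∂cm‖ ≤ 1 / (b j : ℝ) := by
    intro i j hij hj ε
    obtain ⟨J, k, hg, hk⟩ := hm0 (b j) hj
    have hbij := hb hij
    have hb0 : 0 < b j := by omega
    have hbR : (0 : ℝ) < b j := by exact_mod_cast hb0
    have h1 : ∀ ω, ps ((L q (U j) (b j) ω + κ j) + ε * (L q (U i) (b i) ω + κ i)) =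
        ps (κ j + ε * κ i) * ps (L q (fun x => U j x + if x ≤ b i then ε * U i x else 0) (b j) ω) := by
      intro ω
      rw [← ps_add, ← L_add q (U i) (U j) hbij.le]
      congr 1
      ring
    rw [integral_congr_ae (Eventually.of_forall h1), integral_const_mul, norm_mul, norm_ps, one_mul]
    have h2 := good_le hq hθ hθ0 hθ1 hg (fun x => U j x + if x ≤ b i then ε * U i x else 0) (by
      rw [if_neg (by omega), add_zero]
      exact hU j)
    refine h2.trans ?_
    rw [le_div_iff₀ hbR]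
    exact hk
  have hXX : ∀ i j ω, X i ω * X j ω =
      ((ps ((L q (U j) (b j) ω + κ j) + 1 * (L q (U i) (b i) ω + κ i))).re +
        (ps ((L q (U j) (b j) ω + κ j) + (-1) * (L q (U i) (b i) ω + κ i))).re) / 2 := by
    intro i j ω
    obtain ⟨x, hx⟩ : ∃ x, x = L q (U i) (b i) ω + κ i := ⟨_, rfl⟩
    obtain ⟨y, hy⟩ : ∃ y, y = L q (U j) (b j) ω + κ j := ⟨_, rfl⟩
    simp only [hX]
    rw [← hx, ← hy, one_mul, neg_one_mul, ps_add, ps_add, ps_neg, Complex.mul_re, Complex.mul_re,
      Complex.conj_re, Complex.conj_im]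
    ring
  have hint : ∀ i j : ℕ, ∀ ε : ZMod M,
      Integrable (fun ω => ps ((L q (U j) (b j) ω + κ j) + ε * (L q (U i) (b i) ω + κ i))) cm := by
    intro i j ε
    refine intc (PT.meas_loc _ (max (b i) (b j)) fun ω ω' h => ?_) fun ω => (norm_ps _).le
    rw [L_loc hq _ (b i) ω ω' fun x hx => h x (hx.trans (le_max_left _ _)),
      L_loc hq _ (b j) ω ω' fun x hx => h x (hx.trans (le_max_right _ _))]
  have hpair : ∀ i j : ℕ, i < j → |∫ ω, X i ω * X j ω ∂cm| ≤ ((m0 : ℝ) + 2) / (j + 1) := by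
    intro i j hij
    have hbj : j ≤ b j := hb.id_le j
    have hj1 : (1 : ℝ) ≤ j := by exact_mod_cast (by omega : 1 ≤ j)
    rcases le_or_gt m0 (b j) with h | h
    · have hr : ∀ ε : ZMod M, Integrable (fun ω =>
          (ps ((L q (U j) (b j) ω + κ j) + ε * (L q (U i) (b i) ω + κ i))).re) cm := fun ε => (hint i j ε).re
      have hre : ∀ ε : ZMod M, |∫ ω, (ps ((L q (U j) (b j) ω + κ j) + ε * (L q (U i) (b i) ω + κ i))).re ∂cm| ≤
          1 / (b j : ℝ) := by
        intro ε
        have e1 : ∫ ω, (ps ((L q (U j) (b j) ω + κ j) + ε * (L q (U i) (b i) ω + κ i))).re ∂cm =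
            (∫ ω, ps ((L q (U j) (b j) ω + κ j) + ε * (L q (U i) (b i) ω + κ i)) ∂cm).re :=
          integral_re (hint i j ε)
        rw [e1]
        exact (Complex.abs_re_le_norm _).trans (hpair0 i j hij h ε)
      rw [integral_congr_ae (Eventually.of_forall (hXX i j)), integral_div, integral_add (hr 1) (hr (-1))]
      have h1 := hre 1
      have h2 := hre (-1)
      have h3 : 1 / (b j : ℝ) ≤ 1 / j :=
        one_div_le_one_div_of_le (by linarith) (by exact_mod_cast hbj)
      have h4 : 1 / (j : ℝ) ≤ ((m0 : ℝ) + 2) / (j + 1) := by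
        rw [div_le_div_iff₀ (by linarith) (by linarith)]
        nlinarith
      rw [abs_div, abs_two]
      have h5 := abs_add_le (∫ ω, (ps ((L q (U j) (b j) ω + κ j) + 1 * (L q (U i) (b i) ω + κ i))).re ∂cm)
        (∫ ω, (ps ((L q (U j) (b j) ω + κ j) + (-1) * (L q (U i) (b i) ω + κ i))).re ∂cm)
      linarith
    · have h1 : |∫ ω, X i ω * X j ω ∂cm| ≤ 1 := by
        refine (abs_integral_le_integral_abs).trans ?_
        refine (integral_mono_of_nonneg (Eventually.of_forall fun ω => abs_nonneg _) (integrable_const (1 : ℝ))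
          (Eventually.of_forall fun ω => ?_)).trans (by simp)
        simp only [abs_mul]
        exact mul_le_one₀ (hbd i ω) (abs_nonneg _) (hbd j ω)
      refine h1.trans ?_
      rw [le_div_iff₀ (by positivity), one_mul]
      have h3 : j ≤ m0 := by omega
      have h4 : (j : ℝ) ≤ m0 := by exact_mod_cast h3
      linarith
  refine rm X hm hbd (2 * ((m0 : ℝ) + 2) + 1) fun a b' hab => ?_
  induction b', hab using Nat.le_induction with
  | base => simp [bl]
  | succ N hN ih =>
    have hmS : Measurable fun ω => bl (fun j => X j ω) a N :=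
      Finset.measurable_fun_sum _ fun j _ => hm j
    have hbS : ∀ ω : ℕ → Bool, |bl (fun j => X j ω) a N| ≤ (N - a : ℕ) := by
      intro ω
      refine (abs_sum_le_sum_abs _ _).trans ((sum_le_sum fun j _ => hbd j ω).trans ?_)
      simp
    have hi1 : Integrable (fun ω => bl (fun j => X j ω) a N ^ 2) cm :=
      Integrable.of_bound (hmS.pow_const _).aestronglyMeasurable (((N - a : ℕ) : ℝ) ^ 2)
        (Eventually.of_forall fun ω => by
          rw [Real.norm_eq_abs, abs_pow]
          exact pow_le_pow_left₀ (abs_nonneg _) (hbS ω) _)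
    have hi2 : ∀ j, Integrable (fun ω => X j ω * X N ω) cm := fun j =>
      PT.int_bdd ((hm j).mul (hm N)) fun ω => by
        rw [abs_mul]
        exact mul_le_one₀ (hbd j ω) (abs_nonneg _) (hbd N ω)
    have hi6 : Integrable (fun ω => X N ω ^ 2) cm :=
      PT.int_bdd ((hm N).pow_const _) fun ω => by
        rw [abs_pow]
        exact pow_le_one₀ (abs_nonneg _) (hbd N ω)
    have h5 : ∀ ω : ℕ → Bool, bl (fun j => X j ω) a (N + 1) ^ 2 =
        bl (fun j => X j ω) a N ^ 2 + (2 * ∑ j ∈ Ico a N, X j ω * X N ω + X N ω ^ 2) := by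
      intro ω
      unfold bl
      rw [sum_Ico_succ_top hN, ← sum_mul]
      ring
    have hi3 : Integrable (fun ω => ∑ j ∈ Ico a N, X j ω * X N ω) cm :=
      integrable_finsetSum _ fun j _ => hi2 j
    have hi4 : Integrable (fun ω => 2 * ∑ j ∈ Ico a N, X j ω * X N ω) cm := hi3.const_mul 2
    have hi5 : Integrable (fun ω => 2 * ∑ j ∈ Ico a N, X j ω * X N ω + X N ω ^ 2) cm := hi4.add hi6
    rw [integral_congr_ae (Eventually.of_forall h5), integral_add hi1 hi5,
      integral_add hi4 hi6, integral_const_mul, integral_finsetSum _ fun j _ => hi2 j]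
    have h7 : ∑ j ∈ Ico a N, ∫ ω, X j ω * X N ω ∂cm ≤ (m0 : ℝ) + 2 := by
      refine (sum_le_sum fun j hj => (le_abs_self _).trans (hpair j N (mem_Ico.1 hj).2)).trans ?_
      rw [sum_const, Nat.card_Ico, nsmul_eq_mul, ← mul_div_assoc, div_le_iff₀ (by positivity)]
      have h8 : ((N - a : ℕ) : ℝ) ≤ N := by exact_mod_cast Nat.sub_le _ _
      nlinarith [(Nat.cast_nonneg N : (0 : ℝ) ≤ N), (Nat.cast_nonneg (N - a) : (0 : ℝ) ≤ ((N - a : ℕ) : ℝ))]
    have h8 : ∫ ω, X N ω ^ 2 ∂cm ≤ 1 := by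
      refine (integral_mono_of_nonneg (Eventually.of_forall fun ω => sq_nonneg _) (integrable_const (1 : ℝ))
          (Eventually.of_forall fun ω => ?_)).trans (by simp)
      simp only
      rw [← sq_abs]
      exact pow_le_one₀ (abs_nonneg _) (hbd N ω)
    rw [Nat.succ_sub hN]
    push_cast
    linarith

end Pool.Agent.Q163.PM
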