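import Pool.Agent.Q163.PM.AE

/-! A thin set with many representations. -/

set_option autoImplicit false

namespace Pool.Agent.Q163.PM

open Finset

/-- a set with `O(log x ^ 4)` elements up to `x` -/
def T0 : Set ℕ := {t | ∃ r i c : ℕ, 1 ≤ r ∧ i ≤ r ∧ c ≤ 200 * r ^ 2 ∧ t = r ^ 2 * 2 ^ (r + i) + c * 4 ^ i}

lemma Good.mono {T T' : Set ℕ} (h : T ⊆ T') {J k m : ℕ} (hg : Good T J k m) : Good T' J k m := by
  induction hg with
  | base m S hc h1 => exact Good.base m S hc fun s hs => ⟨(h1 s hs).1, (h1 s hs).2.1, h (h1 s hs).2.2.1, h (h1 s hs).2.2.2⟩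
  | step k m S hc h1 h2 ih => exact Good.step k m S hc (fun s hs => ⟨(h1 s hs).1, h (h1 s hs).2⟩) fun s hs => ih s hs

lemma Rich.mono {T T' : Set ℕ} (h : T ⊆ T') (hg : Rich T) : Rich T' := by
  intro θ h0 h1
  obtain ⟨m0, hm0⟩ := hg θ h0 h1
  refine ⟨m0, fun m hm => ?_⟩
  obtain ⟨J, k, h2, h3⟩ := hm0 m hm
  exact ⟨J, k, h2.mono h, h3⟩

/-- the beginning of the `i`-th interval -/
def X (r i : ℕ) : ℕ := r ^ 2 * 2 ^ (r + i) + 2 * r ^ 2 * 4 ^ i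

lemma step_good (r i k m : ℕ) (hr : 1 ≤ r) (hi : i ≤ r)
    (h1 : r ^ 2 * 2 ^ (r + i) + 5 * r ^ 2 * 4 ^ i + X r i + r ^ 2 * 4 ^ i ≤ m)
    (h2 : m < r ^ 2 * 2 ^ (r + i) + 5 * r ^ 2 * 4 ^ i + X r i + 151 * r ^ 2 * 4 ^ i)
    (hg : ∀ s, X r i ≤ s → s < X r i + r ^ 2 * 4 ^ i → Good T0 (r ^ 2) k s) :
    Good T0 (r ^ 2) (k + 1) m := by
  obtain ⟨P, hP⟩ : ∃ P, P = r ^ 2 * 2 ^ (r + i) := ⟨_, rfl⟩
  obtain ⟨Q, hQ⟩ : ∃ Q, Q = 4 ^ i := ⟨_, rfl⟩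
  obtain ⟨J, hJ⟩ : ∃ J, J = r ^ 2 := ⟨_, rfl⟩
  have hQ0 : 0 < Q := by rw [hQ]; positivity
  have hX : X r i = P + 2 * J * Q := by rw [X, hP, hQ, hJ]
  rw [← hP, ← hQ, ← hJ] at h1 h2
  rw [← hQ, ← hJ] at hg
  rw [hX] at h1 h2 hg
  rw [← hJ]
  obtain ⟨R, hR⟩ : ∃ R, m = P + 5 * J * Q + (P + 2 * J * Q) + R := ⟨m - (P + 5 * J * Q + (P + 2 * J * Q)), by omega⟩
  have hR1 : J * Q ≤ R := by omega
  have hR2 : R < 151 * J * Q := by omega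
  have hd := Nat.div_add_mod R Q
  have hmod := Nat.mod_lt R hQ0
  obtain ⟨D, hD⟩ : ∃ D, D = R / Q := ⟨_, rfl⟩
  obtain ⟨ρ, hρ⟩ : ∃ ρ, ρ = R % Q := ⟨_, rfl⟩
  have hD1 : J ≤ D := by
    rw [hD, Nat.le_div_iff_mul_le hQ0]
    exact hR1
  have hD2 : D < 151 * J := by
    rw [hD, Nat.div_lt_iff_lt_mul hQ0]
    exact hR2
  rw [← hD, ← hρ] at hd
  rw [← hρ] at hmod
  have key : ∀ b, b < J → P + 2 * J * Q + ρ + b * Q < P + 2 * J * Q + J * Q ∧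
      m - (P + 2 * J * Q + ρ + b * Q) = P + (5 * J + (D - b)) * Q := by
    intro b hb
    have e1 : b * Q + Q ≤ J * Q := by
      have : (b + 1) * Q ≤ J * Q := Nat.mul_le_mul_right Q hb
      linarith
    refine ⟨by omega, ?_⟩
    obtain ⟨d, hd'⟩ : ∃ d, D = b + d := ⟨D - b, by omega⟩
    have e2 : D - b = d := by omega
    rw [e2]
    rw [hd'] at hd
    have e3 : m = (P + (5 * J + d) * Q) + (P + 2 * J * Q + ρ + b * Q) := by
      rw [hR, ← hd]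
      ring
    rw [e3, Nat.add_sub_cancel]
  refine Good.step k m ((range J).image fun b => P + 2 * J * Q + ρ + b * Q) ?_ ?_ ?_
  · rw [card_image_of_injective, card_range]
    intro b b' hbb
    simp only at hbb
    have : b * Q = b' * Q := by omega
    exact Nat.eq_of_mul_eq_mul_right hQ0 this
  · intro s hs
    obtain ⟨b, hb, rfl⟩ := mem_image.1 hs
    rw [mem_range] at hb
    obtain ⟨k1, k2⟩ := key b hb
    have e4 : J * Q ≤ (5 * J + (D - b)) * Q - 4 * (J * Q) := by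
      have : 5 * (J * Q) ≤ (5 * J + (D - b)) * Q := by nlinarith [Nat.zero_le ((D - b) * Q)]
      omega
    refine ⟨?_, r, i, 5 * J + (D - b), hr, hi, by rw [← hJ]; omega, by rw [← hP, ← hQ]; exact k2⟩
    have e5 : 5 * (J * Q) ≤ (5 * J + (D - b)) * Q := by nlinarith [Nat.zero_le ((D - b) * Q)]
    have e6 : 2 * J * Q = 2 * (J * Q) := by ring
    rw [e6] at k1 k2 ⊢
    have hJQ : 0 < J * Q := by
      have : 0 < J := by rw [hJ]; positivity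
      positivity
    omega
  · intro s hs
    obtain ⟨b, hb, rfl⟩ := mem_image.1 hs
    rw [mem_range] at hb
    exact hg _ (by omega) (key b hb).1

lemma base_good (r m : ℕ) (hr : 1 ≤ r) (h1 : X r 1 ≤ m) (h2 : m < X r 1 + r ^ 2 * 4 ^ 1) :
    Good T0 (r ^ 2) 0 m := by
  obtain ⟨P, hP⟩ : ∃ P, P = r ^ 2 * 2 ^ r := ⟨_, rfl⟩
  obtain ⟨J, hJ⟩ : ∃ J, J = r ^ 2 := ⟨_, rfl⟩
  have hJ0 : 0 < J := by rw [hJ]; positivity
  have hX : X r 1 = 2 * P + 8 * J := by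
    rw [X, hP, hJ]
    ring
  rw [hX] at h1 h2
  rw [← hJ] at h2 ⊢
  refine Good.base m (Ico (P + 2 * J) (P + 3 * J)) (by rw [Nat.card_Ico]; omega) ?_
  intro s hs
  rw [mem_Ico] at hs
  refine ⟨by omega, by omega, ⟨r, 0, m - s - P, hr, Nat.zero_le _, by rw [← hJ]; omega, ?_⟩,
    ⟨r, 0, s - P, hr, Nat.zero_le _, by rw [← hJ]; omega, ?_⟩⟩
  · rw [add_zero, pow_zero, mul_one, ← hP]
    omega
  · rw [add_zero, pow_zero, mul_one, ← hP]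
    omega

lemma chain_good (r : ℕ) (hr : 1 ≤ r) : ∀ i : ℕ, i + 1 ≤ r → ∀ m, X r (i + 1) ≤ m →
    m < X r (i + 1) + r ^ 2 * 4 ^ (i + 1) → Good T0 (r ^ 2) i m := by
  intro i
  induction i with
  | zero =>
    intro _ m h1 h2
    exact base_good r m hr h1 h2
  | succ i ih =>
    intro hi m h1 h2
    have e1 : X r (i + 1 + 1) = r ^ 2 * 2 ^ (r + (i + 1)) + 5 * r ^ 2 * 4 ^ (i + 1) + X r (i + 1) + r ^ 2 * 4 ^ (i + 1) := by
      unfold X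
      ring
    refine step_good r (i + 1) i m hr (by omega) (by rw [← e1]; exact h1) ?_ (ih (by omega))
    rw [e1] at h2
    have e2 : r ^ 2 * 4 ^ (i + 1 + 1) = 4 * (r ^ 2 * 4 ^ (i + 1)) := by ring
    have e3 : 151 * r ^ 2 * 4 ^ (i + 1) = 151 * (r ^ 2 * 4 ^ (i + 1)) := by ring
    omega

lemma final_good (r m : ℕ) (hr : 1 ≤ r) (h1 : 10 * r ^ 2 * 4 ^ r ≤ m) (h2 : m < 160 * r ^ 2 * 4 ^ r) :
    Good T0 (r ^ 2) r m := by
  obtain ⟨i, rfl⟩ : ∃ i, r = i + 1 := ⟨r - 1, by omega⟩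
  have e1 : (2 : ℕ) ^ (i + 1 + (i + 1)) = 4 ^ (i + 1) := by
    rw [← two_mul, pow_mul]
    norm_num
  refine step_good (i + 1) (i + 1) i m hr le_rfl ?_ ?_ (chain_good (i + 1) hr i le_rfl)
  · unfold X
    rw [e1]
    refine le_trans (le_of_eq ?_) h1
    ring
  · unfold X
    rw [e1]
    refine lt_of_lt_of_eq h2 ?_
    ring

lemma exists_scale (m : ℕ) (hm : 40 ≤ m) : ∃ r, 1 ≤ r ∧ 10 * r ^ 2 * 4 ^ r ≤ m ∧ m < 160 * r ^ 2 * 4 ^ r ∧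
    m < 10 * (r + 1) ^ 2 * 4 ^ (r + 1) := by
  have hex : ∃ r, m < 10 * (r + 1) ^ 2 * 4 ^ (r + 1) := by
    refine ⟨m, ?_⟩
    have h1 : m < 4 ^ m := Nat.lt_pow_self (by norm_num)
    have h2 : 4 ^ m ≤ 10 * (m + 1) ^ 2 * 4 ^ (m + 1) := by
      rw [pow_succ 4 m]
      nlinarith [Nat.zero_le (4 ^ m), Nat.zero_le m, Nat.zero_le (m ^ 2 * 4 ^ m), Nat.zero_le (m * 4 ^ m)]
    omega
  obtain ⟨r, hr⟩ : ∃ r, r = Nat.find hex := ⟨_, rfl⟩
  have h1 : m < 10 * (r + 1) ^ 2 * 4 ^ (r + 1) := by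
    rw [hr]
    exact Nat.find_spec hex
  have hr1 : 1 ≤ r := by
    by_contra h
    have : r = 0 := by omega
    rw [this] at h1
    norm_num at h1
    omega
  have h2 : 10 * r ^ 2 * 4 ^ r ≤ m := by
    obtain ⟨r', rfl⟩ : ∃ r', r = r' + 1 := ⟨r - 1, by omega⟩
    have := Nat.find_min hex (m := r') (by rw [← hr]; omega)
    omega
  refine ⟨r, hr1, h2, lt_of_lt_of_le h1 ?_, h1⟩
  have h3 : (r + 1) ^ 2 ≤ 4 * r ^ 2 := by nlinarith
  calc 10 * (r + 1) ^ 2 * 4 ^ (r + 1) = 40 * 4 ^ r * (r + 1) ^ 2 := by ring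
    _ ≤ 40 * 4 ^ r * (4 * r ^ 2) := Nat.mul_le_mul_left _ h3
    _ = 160 * r ^ 2 * 4 ^ r := by ring

/-- **The set `T0` is rich.** -/
theorem rich_T0 : Rich T0 := by
  intro θ h0 h1
  have h2 := (tendsto_pow_atTop_nhds_zero_of_lt_one h0 h1).eventually (gt_mem_nhds (by norm_num : (0 : ℝ) < 1 / 64))
  obtain ⟨r0, hr0⟩ := Filter.eventually_atTop.1 h2
  obtain ⟨R, hR⟩ : ∃ R, R = max r0 8 := ⟨_, rfl⟩
  refine ⟨10 * R ^ 2 * 4 ^ R, fun m hm => ?_⟩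
  have hR8 : 8 ≤ R := by rw [hR]; exact le_max_right _ _
  have hm40 : 40 ≤ m := by
    have h3 : 1 ≤ 4 ^ R := Nat.one_le_pow _ _ (by norm_num)
    have h4 : 64 ≤ R ^ 2 := by nlinarith
    nlinarith
  obtain ⟨r, k1, k2, k3, k4⟩ := exists_scale m hm40
  have hrR : R ≤ r := by
    by_contra h
    have h3 : r + 1 ≤ R := by omega
    have h4 : 10 * (r + 1) ^ 2 * 4 ^ (r + 1) ≤ 10 * R ^ 2 * 4 ^ R :=
      Nat.mul_le_mul (Nat.mul_le_mul_left _ (Nat.pow_le_pow_left h3 2)) (Nat.pow_le_pow_right (by norm_num) h3)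
    omega
  refine ⟨r ^ 2, r, final_good r m k1 k2 k3, ?_⟩
  have h3 : θ ^ r ≤ 1 / 64 := (hr0 r (by
    have : r0 ≤ R := by rw [hR]; exact le_max_left _ _
    omega)).le
  have h4 : θ ^ (r ^ 2) ≤ (1 / 64 : ℝ) ^ r := by
    rw [sq, pow_mul]
    exact pow_le_pow_left₀ (by positivity) h3 r
  have h5 : (m : ℝ) ≤ 160 * r ^ 2 * 4 ^ r := by exact_mod_cast k3.le
  have h6 : (r : ℝ) + 1 ≤ 2 ^ r := by
    have : r + 1 ≤ 2 ^ r := Nat.lt_two_pow_self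
    exact_mod_cast this
  have h7 : (160 : ℝ) ≤ 2 ^ r := by
    have h8 : 2 ^ 8 ≤ 2 ^ r := Nat.pow_le_pow_right (by norm_num) (by omega)
    have h9 : 160 ≤ 2 ^ r := by omega
    exact_mod_cast h9
  have hr0' : (0 : ℝ) ≤ r := Nat.cast_nonneg _
  have h8 : (r : ℝ) ≤ 2 ^ r := by linarith
  have h9 : (r : ℝ) ^ 2 ≤ (2 ^ r) ^ 2 := pow_le_pow_left₀ hr0' h8 2
  have e2 : (0 : ℝ) < 2 ^ r := by positivity
  calc ((r : ℝ) + 1) * θ ^ (r ^ 2) * m ≤ (2 ^ r) * (1 / 64 : ℝ) ^ r * (2 ^ r * (2 ^ r) ^ 2 * 4 ^ r) := by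
        refine mul_le_mul (mul_le_mul h6 h4 (by positivity) (by positivity)) ?_ (by positivity) (by positivity)
        refine h5.trans ?_
        exact mul_le_mul_of_nonneg_right (mul_le_mul h7 h9 (by positivity) (by positivity)) (by positivity)
    _ = (2 * (1 / 64) * 2 * 2 * 2 * 4 : ℝ) ^ r := by
        simp only [mul_pow]
        ring
    _ ≤ 1 := by norm_num

lemma count_T0 (x : ℕ) : (T0 ∩ Set.Icc 1 x).ncard ≤ 402 * Nat.log 2 x ^ 4 := by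
  classical
  obtain ⟨R, hR⟩ : ∃ R, R = Nat.log 2 x := ⟨_, rfl⟩
  rw [← hR]
  set F : Finset ℕ := ((Icc 1 R) ×ˢ (range (R + 1)) ×ˢ (range (200 * R ^ 2 + 1))).image
    fun p => p.1 ^ 2 * 2 ^ (p.1 + p.2.1) + p.2.2 * 4 ^ p.2.1 with hF
  have h1 : T0 ∩ Set.Icc 1 x ⊆ (F : Set ℕ) := by
    rintro t ⟨⟨r, i, c, hr, hi, hc, ht⟩, ht1, htx⟩
    have h2 : 2 ^ r ≤ x := by
      have h3 : 2 ^ r ≤ 2 ^ (r + i) := Nat.pow_le_pow_right (by norm_num) (by omega)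
      have h4 : 1 ≤ r ^ 2 := Nat.one_le_pow _ _ hr
      have h5 : 2 ^ (r + i) ≤ r ^ 2 * 2 ^ (r + i) := Nat.le_mul_of_pos_left _ h4
      omega
    have h6 : r ≤ R := by
      rw [hR]
      exact Nat.le_log_of_pow_le (by norm_num) h2
    rw [mem_coe, hF, mem_image]
    refine ⟨(r, i, c), ?_, ht.symm⟩
    rw [mem_product, mem_product, mem_Icc, mem_range, mem_range]
    have h7 : r ^ 2 ≤ R ^ 2 := Nat.pow_le_pow_left h6 2
    refine ⟨⟨hr, h6⟩, by simp only; omega, by simp only; omega⟩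
  refine (Set.ncard_le_ncard h1 F.finite_toSet).trans ?_
  rw [Set.ncard_coe_finset]
  refine card_image_le.trans ?_
  rw [card_product, card_product, Nat.card_Icc, card_range, card_range, Nat.add_sub_cancel]
  rcases Nat.eq_zero_or_pos R with h | h
  · rw [h]
    norm_num
  · have h2 : R + 1 ≤ 2 * R := by omega
    have h3 : 200 * R ^ 2 + 1 ≤ 201 * R ^ 2 := by
      have : 1 ≤ R ^ 2 := Nat.one_le_pow _ _ h
      omega
    calc R * ((R + 1) * (200 * R ^ 2 + 1)) ≤ R * (2 * R * (201 * R ^ 2)) :=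
          Nat.mul_le_mul_left _ (Nat.mul_le_mul h2 h3)
      _ = 402 * R ^ 4 := by ring

end Pool.Agent.Q163.PM
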