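import Pool.Agent.Q163.PM.Pat
import Pool.Agent.Q163.PM.Thin

/-! Partitions with forbidden parts. -/

set_option autoImplicit false

namespace Pool.Agent.Q163.PM

open Finset MeasureTheory ProbabilityTheory Filter Topology Pool.Agent.Q163.RP Pool.Agent.Q163.RX

/-- the number of partitions of `n` with no part in `D` -/
noncomputable def av (D : Set ℕ) (n : ℕ) : ℕ := {p : n.Partition | ∀ i ∈ p.parts, i ∉ D}.ncard

/-- adding a part -/
def addp (t n : ℕ) (ht : 1 ≤ t) (htn : t ≤ n) (p : (n - t).Partition) : n.Partition where
  parts := t ::ₘ p.parts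
  parts_pos := by
    intro i hi
    rcases Multiset.mem_cons.1 hi with rfl | h
    · exact ht
    · exact p.parts_pos h
  parts_sum := by
    rw [Multiset.sum_cons, p.parts_sum]
    omega

lemma av_split (D : Set ℕ) {t n : ℕ} (ht : 1 ≤ t) (htn : t ≤ n) (htD : t ∉ D) :
    av D n = av (insert t D) n + av D (n - t) := by
  have h1 : {p : n.Partition | ∀ i ∈ p.parts, i ∉ D} =
      {p : n.Partition | ∀ i ∈ p.parts, i ∉ insert t D} ∪
        addp t n ht htn '' {p : (n - t).Partition | ∀ i ∈ p.parts, i ∉ D} := by
    ext p
    simp only [Set.mem_ofPred_eq, Set.mem_union, Set.mem_image]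
    constructor
    · intro hp
      by_cases htp : t ∈ p.parts
      · right
        obtain ⟨s, hs⟩ := Multiset.exists_cons_of_mem htp
        have hsum := p.parts_sum
        rw [hs, Multiset.sum_cons] at hsum
        refine ⟨⟨s, fun {i} hi => p.parts_pos (by rw [hs]; exact Multiset.mem_cons_of_mem hi), by omega⟩,
          fun i hi => hp i (by rw [hs]; exact Multiset.mem_cons_of_mem hi), ?_⟩
        apply Nat.Partition.ext
        exact hs.symm
      · left
        intro i hi
        rintro (rfl | h)
        · exact htp hi
        · exact hp i hi h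
    · rintro (hp | ⟨s, hs, rfl⟩)
      · exact fun i hi h => hp i hi (Set.mem_insert_of_mem _ h)
      · intro i hi
        rcases Multiset.mem_cons.1 hi with rfl | h
        · exact htD
        · exact hs i h
  have h2 : Disjoint {p : n.Partition | ∀ i ∈ p.parts, i ∉ insert t D}
      (addp t n ht htn '' {p : (n - t).Partition | ∀ i ∈ p.parts, i ∉ D}) := by
    rw [Set.disjoint_left]
    rintro p hp ⟨s, _, rfl⟩
    exact hp t (Multiset.mem_cons_self _ _) (Set.mem_insert _ _)
  unfold av
  rw [h1, Set.ncard_union_eq h2 (Set.toFinite _) (Set.toFinite _), Set.ncard_image_of_injective]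
  intro p p' h
  apply Nat.Partition.ext
  have h3 := congrArg Nat.Partition.parts h
  exact (Multiset.cons_inj_right t).1 h3

lemma av_loc {D D' : Set ℕ} {n : ℕ} (h : ∀ i ≤ n, i ∈ D ↔ i ∈ D') : av D n = av D' n := by
  unfold av
  congr 1
  ext p
  simp only [Set.mem_ofPred_eq]
  constructor
  · intro hp i hi h'
    exact hp i hi ((h i (Nat.Partition.le_of_mem_parts hi)).2 h')
  · intro hp i hi h'
    exact hp i hi ((h i (Nat.Partition.le_of_mem_parts hi)).1 h')

lemma av_zero (D : Set ℕ) : av D 0 = 1 := by
  unfold av
  rw [Set.ncard_eq_one]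
  refine ⟨default, ?_⟩
  ext p
  simp only [Set.mem_ofPred_eq, Set.mem_singleton_iff]
  constructor
  · intro _
    exact Subsingleton.elim _ _
  · intro _ i hi
    rw [Nat.Partition.partition_zero_parts] at hi
    exact absurd hi (Multiset.notMem_zero i)

/-- the random subset of `T` -/
def sub (T : Set ℕ) (ω : ℕ → Bool) : Set ℕ := {t ∈ T | ω t = true}

/-- **Partitions with random forbidden parts form a family with fresh bits.** -/
theorem fam_av (M : ℕ) (T : Set ℕ) : Fam M T fun ω n => ((av (sub T ω) n : ℕ) : ZMod M) where
  loc := by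
    intro n ω ω' h
    rw [av_loc fun i hi => ?_]
    simp only [sub, Set.mem_ofPred_eq]
    rw [h i hi]
  zero := by
    intro ω
    rw [av_zero, Nat.cast_one]
  mid := by
    intro t ht ω n h1 h2
    have ht1 : 1 ≤ t := by omega
    have hne : ∀ i, i ≠ t → (i ∈ sub T (fl t ω) ↔ i ∈ sub T ω) := by
      intro i hi
      simp only [sub, Set.mem_ofPred_eq]
      rw [fl_ne hi]
    have hself : fl t ω t = !(ω t) := by
      unfold fl
      rw [if_pos rfl]
    rcases hω : ω t with _ | _
    · have hn : t ∉ sub T ω := fun h => by
        have := h.2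
        rw [hω] at this
        exact Bool.false_ne_true this
      have he : sub T (fl t ω) = insert t (sub T ω) := by
        ext i
        rw [Set.mem_insert_iff]
        by_cases hi : i = t
        · subst hi
          refine ⟨fun _ => Or.inl rfl, fun _ => ⟨ht, ?_⟩⟩
          rw [hself, hω]
          rfl
        · rw [hne i hi]
          exact ⟨Or.inr, fun h => h.resolve_left hi⟩
      rw [he, av_split (sub T ω) ht1 h1 hn]
      unfold sg
      push_cast
      simp
    · have hn : t ∉ sub T (fl t ω) := fun h => by
        have := h.2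
        rw [hself, hω] at this
        exact Bool.false_ne_true this
      have he : sub T ω = insert t (sub T (fl t ω)) := by
        ext i
        rw [Set.mem_insert_iff]
        by_cases hi : i = t
        · subst hi
          exact ⟨fun _ => Or.inl rfl, fun _ => ⟨ht, hω⟩⟩
        · rw [hne i hi]
          exact ⟨Or.inr, fun h => h.resolve_left hi⟩
      have h3 : av (sub T (fl t ω)) (n - t) = av (sub T ω) (n - t) :=
        av_loc fun i hi => hne i (by omega)
      rw [av_split (sub T (fl t ω)) ht1 h1 hn, ← he, h3]
      unfold sg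
      push_cast
      simp

end Pool.Agent.Q163.PM
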