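import Pool.Agent.Q163.PT.Fam

/-! Random sequences modulo `M` with fresh bits: linear functionals and their characters. -/

set_option autoImplicit false

namespace Pool.Agent.Q163.PM

open Finset MeasureTheory ProbabilityTheory Pool.Agent.Q163.RP Pool.Agent.Q163.RX

/-- the sign of a bit -/
def sg (M : ℕ) (b : Bool) : ZMod M := if b then 1 else -1

/-- a random sequence modulo `M` with fresh bits at the elements of `T` -/
structure Fam (M : ℕ) (T : Set ℕ) (q : (ℕ → Bool) → ℕ → ZMod M) : Prop where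
  loc : ∀ n ω ω', (∀ i ≤ n, ω i = ω' i) → q ω n = q ω' n
  mid : ∀ t ∈ T, ∀ ω n, t ≤ n → n < 2 * t → q (fl t ω) n = q ω n + sg M (ω t) * q ω (n - t)
  zero : ∀ ω, q ω 0 = 1

variable {M : ℕ} {T : Set ℕ} {q : (ℕ → Bool) → ℕ → ZMod M}

/-- a linear functional with top index `m` -/
def L (q : (ℕ → Bool) → ℕ → ZMod M) (u : ℕ → ZMod M) (m : ℕ) (ω : ℕ → Bool) : ZMod M :=
  ∑ i ∈ range (m + 1), u i * q ω i

lemma fl_ne {t i : ℕ} (h : i ≠ t) (ω : ℕ → Bool) : fl t ω i = ω i := by
  unfold fl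
  rw [if_neg h]

lemma Fam.low (hq : Fam M T q) {t n : ℕ} (h : n < t) (ω : ℕ → Bool) : q (fl t ω) n = q ω n :=
  hq.loc n _ _ fun i hi => fl_ne (by omega) ω

lemma L_loc (hq : Fam M T q) (u : ℕ → ZMod M) (m : ℕ) (ω ω' : ℕ → Bool) (h : ∀ i ≤ m, ω i = ω' i) :
    L q u m ω = L q u m ω' := by
  unfold L
  refine sum_congr rfl fun i hi => ?_
  rw [mem_range] at hi
  rw [hq.loc i ω ω' fun j hj => h j (by omega)]

lemma L_low (hq : Fam M T q) (u : ℕ → ZMod M) {m t : ℕ} (h : m < t) (ω : ℕ → Bool) :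
    L q u m (fl t ω) = L q u m ω :=
  L_loc hq u m _ _ fun i hi => fl_ne (by omega) ω

lemma L_flip (hq : Fam M T q) (u : ℕ → ZMod M) {m t : ℕ} (ht : t ∈ T) (h1 : t ≤ m) (h2 : m < 2 * t)
    (ω : ℕ → Bool) :
    L q u m (fl t ω) = L q u m ω + sg M (ω t) * L q (fun i => u (i + t)) (m - t) ω := by
  unfold L
  have e1 : m + 1 = t + (m - t + 1) := by omega
  rw [e1, sum_range_add _ t, sum_range_add _ t]
  have e2 : ∑ x ∈ range t, u x * q (fl t ω) x = ∑ x ∈ range t, u x * q ω x :=
    sum_congr rfl fun x hx => by rw [hq.low (mem_range.1 hx)]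
  have e3 : ∑ x ∈ range (m - t + 1), u (t + x) * q (fl t ω) (t + x) =
      ∑ x ∈ range (m - t + 1), u (t + x) * q ω (t + x) +
        sg M (ω t) * ∑ x ∈ range (m - t + 1), u (x + t) * q ω x := by
    rw [mul_sum, ← sum_add_distrib]
    refine sum_congr rfl fun x hx => ?_
    rw [mem_range] at hx
    rw [hq.mid t ht ω (t + x) (by omega) (by omega), Nat.add_sub_cancel_left, add_comm x t]
    ring
  rw [e2, e3, add_assoc]

lemma L_meas (hq : Fam M T q) (u : ℕ → ZMod M) (m : ℕ) {β : Type*} [MeasurableSpace β] (f : ZMod M → β) :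
    Measurable fun ω => f (L q u m ω) :=
  PT.meas_loc _ m fun ω ω' h => by rw [L_loc hq u m ω ω' h]

variable [NeZero M]

/-- the additive character of `ZMod M` -/
noncomputable def ps (x : ZMod M) : ℂ := ZMod.stdAddChar x

lemma ps_add (x y : ZMod M) : ps (x + y) = ps x * ps y := AddChar.map_add_eq_mul _ x y

lemma norm_ps (x : ZMod M) : ‖ps x‖ = 1 := AddChar.norm_apply _ x

lemma ps_zero : ps (0 : ZMod M) = 1 := AddChar.map_zero_eq_one _

lemma ps_neg (x : ZMod M) : ps (-x) = (starRingEnd ℂ) (ps x) := by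
  have h1 : ps x * ps (-x) = 1 := by rw [← ps_add, add_neg_cancel, ps_zero]
  have h2 : ps x * (starRingEnd ℂ) (ps x) = 1 := by
    rw [Complex.mul_conj, Complex.normSq_eq_norm_sq, norm_ps]
    norm_num
  have h3 : ps x ≠ 0 := by
    intro h
    have := norm_ps x
    rw [h, norm_zero] at this
    exact zero_ne_one this
  exact mul_left_cancel₀ h3 (h1.trans h2.symm)

/-- the majorant -/
noncomputable def gg (x : ZMod M) : ℝ := 3 / 4 + (ps x).re / 4

lemma re_abs (x : ZMod M) : |(ps x).re| ≤ 1 := (Complex.abs_re_le_norm _).trans (norm_ps x).le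

lemma gg_neg (x : ZMod M) : gg (-x) = gg x := by
  unfold gg
  rw [ps_neg, Complex.conj_re]

lemma gg_nonneg (x : ZMod M) : 0 ≤ gg x := by
  have := abs_le.1 (re_abs x)
  unfold gg
  linarith

lemma gg_le (x : ZMod M) : gg x ≤ 1 := by
  have := abs_le.1 (re_abs x)
  unfold gg
  linarith

lemma gg_sg (b : Bool) (x : ZMod M) : gg (sg M b * x) = gg x := by
  unfold sg
  split_ifs
  · rw [one_mul]
  · rw [neg_one_mul, gg_neg]

lemma half_le (x : ZMod M) : ‖(1 + ps x) / 2‖ ≤ gg x := by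
  have h1 : ‖1 + ps x‖ ^ 2 = 2 + 2 * (ps x).re := by
    rw [← Complex.normSq_eq_norm_sq, Complex.normSq_apply]
    have h2 : (ps x).re * (ps x).re + (ps x).im * (ps x).im = 1 := by
      rw [← Complex.normSq_apply, Complex.normSq_eq_norm_sq, norm_ps]
      norm_num
    simp only [Complex.add_re, Complex.one_re, Complex.add_im, Complex.one_im, zero_add]
    linarith
  rw [norm_div, Complex.norm_ofNat]
  unfold gg
  nlinarith [sq_nonneg (‖1 + ps x‖ / 2 - 1)]

lemma gg_eq_one {x : ZMod M} (h : gg x = 1) : x = 0 := by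
  unfold gg at h
  have h1 : (ps x).re = 1 := by linarith
  have h2 : (ps x).re * (ps x).re + (ps x).im * (ps x).im = 1 := by
    rw [← Complex.normSq_apply, Complex.normSq_eq_norm_sq, norm_ps]
    norm_num
  have h3 : (ps x).im = 0 := by
    rw [h1] at h2
    nlinarith
  have h4 : ps x = ps (0 : ZMod M) := by
    rw [ps_zero]
    exact Complex.ext h1 h3
  exact ZMod.injective_stdAddChar h4

variable (M) in
/-- two values with a fixed nonzero difference cannot both be almost zero -/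
lemma exists_theta : ∃ θ : ℝ, 3 / 4 ≤ θ ∧ θ < 1 ∧ ∀ c w : ZMod M, c ≠ 0 → gg w + gg (w + c) ≤ 2 * θ := by
  classical
  by_cases hne : ((univ : Finset (ZMod M × ZMod M)).filter fun p => p.1 ≠ 0).Nonempty
  · obtain ⟨p, hp, hmax⟩ := exists_max_image _ (fun p : ZMod M × ZMod M => gg p.2 + gg (p.2 + p.1)) hne
    refine ⟨max (3 / 4) ((gg p.2 + gg (p.2 + p.1)) / 2), le_max_left _ _, ?_, fun c w hc => ?_⟩
    · rw [max_lt_iff]
      refine ⟨by norm_num, ?_⟩
      rw [div_lt_one (by norm_num)]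
      by_contra h
      push Not at h
      have h1 := gg_le p.2
      have h2 := gg_le (p.2 + p.1)
      have h3 := gg_eq_one (le_antisymm h1 (by linarith))
      have h4 := gg_eq_one (le_antisymm h2 (by linarith))
      rw [h3, zero_add] at h4
      exact (mem_filter.1 hp).2 h4
    · have h1 := hmax (c, w) (mem_filter.2 ⟨mem_univ _, hc⟩)
      have h2 := le_max_right (3 / 4 : ℝ) ((gg p.2 + gg (p.2 + p.1)) / 2)
      simp only at h1
      linarith
  · refine ⟨3 / 4, le_rfl, by norm_num, fun c w hc => ?_⟩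
    exact absurd ⟨(c, w), mem_filter.2 ⟨mem_univ _, hc⟩⟩ hne

/-- the coefficient of the bit `m - s` in a functional -/
def W (q : (ℕ → Bool) → ℕ → ZMod M) (u : ℕ → ZMod M) (m s : ℕ) (ω : ℕ → Bool) : ZMod M :=
  L q (fun i => u (i + (m - s))) s ω

lemma intc {g : (ℕ → Bool) → ℂ} (hm : Measurable g) (hb : ∀ ω, ‖g ω‖ ≤ 1) : Integrable g cm :=
  Integrable.of_bound hm.aestronglyMeasurable 1 (Filter.Eventually.of_forall hb)

lemma int_flc (t : ℕ) {g : (ℕ → Bool) → ℂ} (hm : Measurable g) :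
    ∫ ω, g (fl t ω) ∂cm = ∫ ω, g ω ∂cm := by
  have h2 := integral_map (μ := cm) (φ := fl t) (mp_fl t).measurable.aemeasurable
    (f := g) hm.aestronglyMeasurable
  rw [(mp_fl t).map_eq] at h2
  exact h2.symm

lemma half_norm (x : ZMod M) : ‖(1 + ps x) / 2‖ ≤ 1 := (half_le x).trans (gg_le x)

lemma meas_ps : Measurable (fun x : ZMod M => ps x) := measurable_of_finite _

/-- inserting the averages over the bits `m - s` -/
lemma insert_avg (hq : Fam M T q) (u : ℕ → ZMod M) (m : ℕ) (S : Finset ℕ)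
    (hS : ∀ s ∈ S, 2 * s < m ∧ m - s ∈ T) :
    ∫ ω, ps (L q u m ω) ∂cm =
      ∫ ω, ps (L q u m ω) * ∏ s ∈ S, ((1 + ps (sg M (ω (m - s)) * W q u m s ω)) / 2) ∂cm := by
  classical
  induction S using Finset.induction_on with
  | empty => simp
  | insert a S ha ih =>
    rw [ih fun s hs => hS s (mem_insert_of_mem hs)]
    obtain ⟨ha2, ha3⟩ := hS a (mem_insert_self _ _)
    set G : (ℕ → Bool) → ℂ := fun ω =>
      ps (L q u m ω) * ∏ s ∈ S, ((1 + ps (sg M (ω (m - s)) * W q u m s ω)) / 2) with hG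
    have hmG : Measurable G := by
      refine (L_meas hq u m fun x => ps x).mul (Finset.measurable_fun_prod _ fun s hs => ?_)
      have hs2 := (hS s (mem_insert_of_mem hs)).1
      refine PT.meas_loc _ m fun ω ω' h => ?_
      rw [h (m - s) (by omega)]
      unfold W
      rw [L_loc hq _ s ω ω' fun i hi => h i (by omega)]
    have hbG : ∀ ω, ‖G ω‖ ≤ 1 := by
      intro ω
      simp only [hG, norm_mul, norm_ps, one_mul, norm_prod]
      exact prod_le_one (fun _ _ => norm_nonneg _) fun s _ => half_norm _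
    have hfl : ∀ ω, G (fl (m - a) ω) = G ω * ps (sg M (ω (m - a)) * W q u m a ω) := by
      intro ω
      have h1 : L q u m (fl (m - a) ω) = L q u m ω + sg M (ω (m - a)) * W q u m a ω := by
        rw [L_flip hq u ha3 (by omega) (by omega)]
        unfold W
        rw [Nat.sub_sub_self (by omega)]
      simp only [hG]
      rw [h1, ps_add]
      have h3 : ∀ s ∈ S, (1 + ps (sg M (fl (m - a) ω (m - s)) * W q u m s (fl (m - a) ω))) / 2 =
          (1 + ps (sg M (ω (m - s)) * W q u m s ω)) / 2 := by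
        intro s hs
        have hs2 := (hS s (mem_insert_of_mem hs)).1
        have hsa : s ≠ a := fun h => ha (h ▸ hs)
        rw [fl_ne (by omega)]
        unfold W
        rw [L_low hq _ (by omega)]
      rw [prod_congr rfl h3]
      ring
    have hm2 : Measurable fun ω => G ω * ps (sg M (ω (m - a)) * W q u m a ω) := by
      refine hmG.mul (PT.meas_loc _ m fun ω ω' h => ?_)
      rw [h (m - a) (by omega)]
      unfold W
      rw [L_loc hq _ a ω ω' fun i hi => h i (by omega)]
    have h5 : ∫ ω, G ω * ps (sg M (ω (m - a)) * W q u m a ω) ∂cm = ∫ ω, G ω ∂cm := by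
      rw [← int_flc (m - a) hmG]
      exact integral_congr_ae (Filter.Eventually.of_forall fun ω => (hfl ω).symm)
    have h6 : ∀ ω, ps (L q u m ω) * ∏ s ∈ insert a S, ((1 + ps (sg M (ω (m - s)) * W q u m s ω)) / 2) =
        (G ω + G ω * ps (sg M (ω (m - a)) * W q u m a ω)) / 2 := by
      intro ω
      rw [prod_insert ha]
      simp only [hG]
      ring
    rw [integral_congr_ae (Filter.Eventually.of_forall h6), integral_div,
      integral_add (intc hmG hbG) (intc hm2 fun ω => by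
        rw [norm_mul, norm_ps, mul_one]
        exact hbG ω), h5]
    ring

lemma meas_gW (hq : Fam M T q) (u : ℕ → ZMod M) (m s : ℕ) : Measurable fun ω => gg (W q u m s ω) :=
  L_meas hq _ s _

lemma abs_gg (x : ZMod M) : |gg x| ≤ 1 := by
  rw [abs_of_nonneg (gg_nonneg x)]
  exact gg_le x

lemma norm_le_prod (hq : Fam M T q) (u : ℕ → ZMod M) (m : ℕ) (S : Finset ℕ)
    (hS : ∀ s ∈ S, 2 * s < m ∧ m - s ∈ T) :
    ‖∫ ω, ps (L q u m ω) ∂cm‖ ≤ ∫ ω, ∏ s ∈ S, gg (W q u m s ω) ∂cm := by
  rw [insert_avg hq u m S hS]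
  refine (norm_integral_le_integral_norm _).trans ?_
  refine integral_mono_of_nonneg (Filter.Eventually.of_forall fun ω => norm_nonneg _)
    (PT.int_bdd (PT.meas_prod fun s => meas_gW hq u m s) fun ω => PT.abs_prod_le fun s => abs_gg _)
    (Filter.Eventually.of_forall fun ω => ?_)
  simp only [norm_mul, norm_ps, one_mul, norm_prod]
  refine prod_le_prod (fun _ _ => norm_nonneg _) fun s _ => ?_
  refine (half_le _).trans (le_of_eq (gg_sg _ _))

/-- the base case: fresh bits at the elements of `S` -/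
lemma base_le (hq : Fam M T q) {θ : ℝ} (hθ : ∀ c w : ZMod M, c ≠ 0 → gg w + gg (w + c) ≤ 2 * θ)
    (hθ0 : 0 ≤ θ) (u : ℕ → ZMod M) (m : ℕ) (hu : u m ≠ 0) (S : Finset ℕ)
    (hS : ∀ s ∈ S, 1 ≤ s ∧ s ≤ m ∧ s ∈ T) : ∫ ω, ∏ s ∈ S, gg (W q u m s ω) ∂cm ≤ θ ^ S.card := by
  classical
  induction S using Finset.induction_on_max with
  | empty => simp
  | insert a S ha ih =>
    have hna : a ∉ S := fun h => lt_irrefl _ (ha a h)
    obtain ⟨ha1, ham, haT⟩ := hS a (mem_insert_self _ _)
    have ih' := ih fun s hs => hS s (mem_insert_of_mem hs)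
    set Y : (ℕ → Bool) → ℝ := fun ω => ∏ s ∈ S, gg (W q u m s ω) with hY
    have hmY : Measurable Y := PT.meas_prod fun s => meas_gW hq u m s
    have hbY : ∀ ω, |Y ω| ≤ 1 := fun ω => PT.abs_prod_le fun s => abs_gg _
    have hY0 : ∀ ω, 0 ≤ Y ω := fun ω => prod_nonneg fun s _ => gg_nonneg _
    have hYfl : ∀ ω, Y (fl a ω) = Y ω := by
      intro ω
      simp only [hY]
      refine prod_congr rfl fun s hs => ?_
      unfold W
      rw [L_low hq _ (ha s hs)]
    have hWfl : ∀ ω, W q u m a (fl a ω) = W q u m a ω + sg M (ω a) * u m := by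
      intro ω
      unfold W
      rw [L_flip hq _ haT le_rfl (by omega)]
      congr 2
      unfold L
      rw [Nat.sub_self, zero_add, sum_range_one, hq.zero, mul_one]
      have e1 : 0 + a + (m - a) = m := by omega
      simp only [e1]
    have hm2 : Measurable fun ω => gg (W q u m a ω) * Y ω := (meas_gW hq u m a).mul hmY
    have hb2 : ∀ ω, |gg (W q u m a ω) * Y ω| ≤ 1 := by
      intro ω
      rw [abs_mul]
      have := mul_le_mul (abs_gg (W q u m a ω)) (hbY ω) (abs_nonneg _) zero_le_one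
      linarith
    have h1 : ∫ ω, gg (W q u m a ω) * Y ω ∂cm = ∫ ω, gg (W q u m a ω + sg M (ω a) * u m) * Y ω ∂cm := by
      rw [← PT.int_fl a hm2]
      refine integral_congr_ae (Filter.Eventually.of_forall fun ω => ?_)
      simp only
      rw [hWfl, hYfl]
    have hm3 : Measurable fun ω => gg (W q u m a ω + sg M (ω a) * u m) * Y ω := by
      refine Measurable.mul ?_ hmY
      refine PT.meas_loc _ a fun ω ω' h => ?_
      unfold W
      rw [L_loc hq _ a ω ω' h, h a le_rfl]
    have hb3 : ∀ ω, |gg (W q u m a ω + sg M (ω a) * u m) * Y ω| ≤ 1 := by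
      intro ω
      rw [abs_mul]
      have := mul_le_mul (abs_gg (W q u m a ω + sg M (ω a) * u m)) (hbY ω) (abs_nonneg _) zero_le_one
      linarith
    have h2 : (∫ ω, gg (W q u m a ω) * Y ω ∂cm) + ∫ ω, gg (W q u m a ω + sg M (ω a) * u m) * Y ω ∂cm ≤
        2 * θ * ∫ ω, Y ω ∂cm := by
      rw [← integral_add (PT.int_bdd hm2 hb2) (PT.int_bdd hm3 hb3), ← integral_const_mul]
      refine integral_mono ((PT.int_bdd hm2 hb2).add (PT.int_bdd hm3 hb3))
        ((PT.int_bdd hmY hbY).const_mul _) fun ω => ?_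
      simp only
      rw [← add_mul]
      refine mul_le_mul_of_nonneg_right (hθ _ _ ?_) (hY0 ω)
      unfold sg
      split_ifs
      · rwa [one_mul]
      · rw [neg_one_mul]
        exact neg_ne_zero.2 hu
    rw [← h1] at h2
    simp_rw [prod_insert hna]
    rw [card_insert_of_notMem hna, pow_succ]
    have h3 : θ * ∫ ω, Y ω ∂cm ≤ θ * θ ^ S.card := mul_le_mul_of_nonneg_left ih' hθ0
    nlinarith

/-- products of majorants do not increase the bound for the functionals with a higher top -/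
lemma high_le (hq : Fam M T q) (u : ℕ → ZMod M) (m a : ℕ) {β : ℝ}
    (hβ : ∀ v : ℕ → ZMod M, v a ≠ 0 → ‖∫ ω, ps (L q v a ω) ∂cm‖ ≤ β) (S : Finset ℕ)
    (hS : ∀ s ∈ S, s < a) : ∀ v : ℕ → ZMod M, v a ≠ 0 →
    ‖∫ ω, ps (L q v a ω) * ((∏ s ∈ S, gg (W q u m s ω) : ℝ) : ℂ) ∂cm‖ ≤ β := by
  classical
  induction S using Finset.induction_on with
  | empty =>
    intro v hv
    simpa using hβ v hv
  | insert b S hb ih =>
    intro v hv
    have hba := hS b (mem_insert_self _ _)
    have ih' := ih fun s hs => hS s (mem_insert_of_mem hs)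
    set Y : (ℕ → Bool) → ℝ := fun ω => ∏ s ∈ S, gg (W q u m s ω) with hY
    have hmY : Measurable Y := PT.meas_prod fun s => meas_gW hq u m s
    have hbY : ∀ ω, |Y ω| ≤ 1 := fun ω => PT.abs_prod_le fun s => abs_gg _
    have key : ∀ ε : ZMod M, ∀ ω, ps (L q v a ω) * ps (ε * W q u m b ω) =
        ps (L q (fun i => v i + if i ≤ b then ε * u (i + (m - b)) else 0) a ω) := by
      intro ε ω
      rw [← ps_add]
      congr 1
      unfold W L
      simp_rw [add_mul]
      rw [sum_add_distrib]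
      congr 1
      have e1 : a + 1 = (b + 1) + (a - b) := by omega
      rw [e1, sum_range_add _ (b + 1), mul_sum]
      have e2 : ∑ x ∈ range (a - b), (if b + 1 + x ≤ b then ε * u (b + 1 + x + (m - b)) else 0) * q ω (b + 1 + x) = 0 := by
        refine sum_eq_zero fun x _ => ?_
        rw [if_neg (by omega), zero_mul]
      rw [e2, add_zero]
      refine sum_congr rfl fun x hx => ?_
      rw [if_pos (by have := mem_range.1 hx; omega), mul_assoc]
    have hva : ∀ ε : ZMod M, (fun i => v i + if i ≤ b then ε * u (i + (m - b)) else 0) a ≠ 0 := by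
      intro ε
      simp only
      rw [if_neg (by omega), add_zero]
      exact hv
    have hg : ∀ x : ZMod M, ((gg x : ℝ) : ℂ) = 3 / 4 + ps (1 * x) / 8 + ps (-1 * x) / 8 := by
      intro x
      rw [one_mul, neg_one_mul, ps_neg]
      apply Complex.ext
      · simp [gg]
        ring
      · simp [gg]
        ring
    have hint : ∀ v : ℕ → ZMod M, Integrable (fun ω => ps (L q v a ω) * ((Y ω : ℝ) : ℂ)) cm := by
      intro v
      refine intc ((L_meas hq v a fun x => ps x).mul (Complex.measurable_ofReal.comp hmY)) fun ω => ?_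
      rw [norm_mul, norm_ps, one_mul, Complex.norm_real, Real.norm_eq_abs]
      exact hbY ω
    have h1 : ∀ ω, ps (L q v a ω) * ((∏ s ∈ insert b S, gg (W q u m s ω) : ℝ) : ℂ) =
        3 / 4 * (ps (L q v a ω) * ((Y ω : ℝ) : ℂ)) +
        (1 / 8 * (ps (L q (fun i => v i + if i ≤ b then 1 * u (i + (m - b)) else 0) a ω) * ((Y ω : ℝ) : ℂ)) +
        1 / 8 * (ps (L q (fun i => v i + if i ≤ b then -1 * u (i + (m - b)) else 0) a ω) * ((Y ω : ℝ) : ℂ))) := by
      intro ω
      rw [← key 1, ← key (-1), prod_insert hb]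
      push_cast
      rw [hg]
      simp only [hY]
      push_cast
      ring
    obtain ⟨v1, hv1⟩ : ∃ v1 : ℕ → ZMod M, v1 = fun i => v i + if i ≤ b then 1 * u (i + (m - b)) else 0 := ⟨_, rfl⟩
    obtain ⟨v2, hv2⟩ : ∃ v2 : ℕ → ZMod M, v2 = fun i => v i + if i ≤ b then -1 * u (i + (m - b)) else 0 := ⟨_, rfl⟩
    rw [← hv1, ← hv2] at h1
    have i1 : Integrable (fun ω => 3 / 4 * (ps (L q v a ω) * ((Y ω : ℝ) : ℂ))) cm := (hint _).const_mul _
    have i2 : Integrable (fun ω => 1 / 8 * (ps (L q v1 a ω) * ((Y ω : ℝ) : ℂ))) cm := (hint _).const_mul _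
    have i3 : Integrable (fun ω => 1 / 8 * (ps (L q v2 a ω) * ((Y ω : ℝ) : ℂ))) cm := (hint _).const_mul _
    have i4 : Integrable (fun ω => 1 / 8 * (ps (L q v1 a ω) * ((Y ω : ℝ) : ℂ)) +
      1 / 8 * (ps (L q v2 a ω) * ((Y ω : ℝ) : ℂ))) cm := i2.add i3
    rw [integral_congr_ae (Filter.Eventually.of_forall h1), integral_add i1 i4, integral_add i2 i3,
      integral_const_mul, integral_const_mul, integral_const_mul]
    have h2 := ih' v hv
    have h3 := ih' v1 (by rw [hv1]; exact hva 1)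
    have h4 := ih' v2 (by rw [hv2]; exact hva (-1))
    refine (norm_add_le _ _).trans ((add_le_add le_rfl (norm_add_le _ _)).trans ?_)
    simp only [norm_mul, norm_div, norm_one, Complex.norm_ofNat]
    linarith

/-- the step -/
lemma step_le (hq : Fam M T q) (u : ℕ → ZMod M) (m : ℕ) (hu : u m ≠ 0) {β : ℝ} (S : Finset ℕ)
    (hS : ∀ s ∈ S, s ≤ m)
    (hβ : ∀ s ∈ S, ∀ v : ℕ → ZMod M, v s ≠ 0 → ‖∫ ω, ps (L q v s ω) ∂cm‖ ≤ β) :
    ∫ ω, ∏ s ∈ S, gg (W q u m s ω) ∂cm ≤ (3 / 4) ^ S.card + β * (1 - (3 / 4) ^ S.card) := by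
  classical
  induction S using Finset.induction_on_max with
  | empty => simp
  | insert a S ha ih =>
    have hna : a ∉ S := fun h => lt_irrefl _ (ha a h)
    have ham := hS a (mem_insert_self _ _)
    have ih' := ih (fun s hs => hS s (mem_insert_of_mem hs)) fun s hs => hβ s (mem_insert_of_mem hs)
    have h1 := high_le hq u m a (hβ a (mem_insert_self _ _)) S ha (fun i => u (i + (m - a))) (by
      rw [Nat.add_sub_cancel' ham]
      exact hu)
    set Y : (ℕ → Bool) → ℝ := fun ω => ∏ s ∈ S, gg (W q u m s ω) with hY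
    have hmY : Measurable Y := PT.meas_prod fun s => meas_gW hq u m s
    have hbY : ∀ ω, |Y ω| ≤ 1 := fun ω => PT.abs_prod_le fun s => abs_gg _
    have hint : Integrable (fun ω => ps (W q u m a ω) * ((Y ω : ℝ) : ℂ)) cm := by
      refine intc ((L_meas hq _ a fun x => ps x).mul (Complex.measurable_ofReal.comp hmY)) fun ω => ?_
      rw [norm_mul, norm_ps, one_mul, Complex.norm_real, Real.norm_eq_abs]
      exact hbY ω
    have h2 : ∀ ω, ∏ s ∈ insert a S, gg (W q u m s ω) =
        3 / 4 * Y ω + 1 / 4 * (ps (W q u m a ω) * ((Y ω : ℝ) : ℂ)).re := by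
      intro ω
      rw [prod_insert hna, Complex.re_mul_ofReal]
      unfold gg
      simp only [hY, gg]
      ring
    have hint2 : Integrable (fun ω => (ps (W q u m a ω) * ((Y ω : ℝ) : ℂ)).re) cm := hint.re
    have h3 : ∫ ω, (ps (W q u m a ω) * ((Y ω : ℝ) : ℂ)).re ∂cm =
        (∫ ω, ps (W q u m a ω) * ((Y ω : ℝ) : ℂ) ∂cm).re := integral_re hint
    rw [integral_congr_ae (Filter.Eventually.of_forall h2),
      integral_add ((PT.int_bdd hmY hbY).const_mul _) (hint2.const_mul _), integral_const_mul,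
      integral_const_mul, h3, card_insert_of_notMem hna, pow_succ]
    have h4 : (∫ ω, ps (W q u m a ω) * ((Y ω : ℝ) : ℂ) ∂cm).re ≤ β :=
      (Complex.re_le_norm _).trans h1
    linarith

/-- numbers with many representations by elements of `T` -/
inductive Good (T : Set ℕ) (J : ℕ) : ℕ → ℕ → Prop
  | base (m : ℕ) (S : Finset ℕ) (hc : J ≤ S.card)
      (h : ∀ s ∈ S, 1 ≤ s ∧ 2 * s < m ∧ m - s ∈ T ∧ s ∈ T) : Good T J 0 m
  | step (k m : ℕ) (S : Finset ℕ) (hc : J ≤ S.card)
      (h : ∀ s ∈ S, 2 * s < m ∧ m - s ∈ T) (h' : ∀ s ∈ S, Good T J k s) : Good T J (k + 1) m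

/-- **The bound for the characters of the functionals.** -/
theorem good_le (hq : Fam M T q) {θ : ℝ} (hθ : ∀ c w : ZMod M, c ≠ 0 → gg w + gg (w + c) ≤ 2 * θ)
    (hθ0 : 3 / 4 ≤ θ) (hθ1 : θ < 1) {J k m : ℕ} (hg : Good T J k m) : ∀ u : ℕ → ZMod M, u m ≠ 0 →
    ‖∫ ω, ps (L q u m ω) ∂cm‖ ≤ (k + 1) * θ ^ J := by
  have hθ' : 0 ≤ θ := by linarith
  induction hg with
  | base m S hc h =>
    intro u hu
    have h1 := norm_le_prod hq u m S fun s hs => ⟨(h s hs).2.1, (h s hs).2.2.1⟩
    have h2 := base_le hq hθ hθ' u m hu S fun s hs => ⟨(h s hs).1, by have := (h s hs).2.1; omega, (h s hs).2.2.2⟩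
    have h3 : θ ^ S.card ≤ θ ^ J := pow_le_pow_of_le_one hθ' hθ1.le hc
    push_cast
    linarith
  | step k m S hc h h' ih =>
    intro u hu
    have h1 := norm_le_prod hq u m S h
    have h2 := step_le hq u m hu S (fun s hs => by have := (h s hs).1; omega) fun s hs v hv => ih s hs v hv
    have h3 : (3 / 4 : ℝ) ^ S.card ≤ θ ^ J :=
      (pow_le_pow_left₀ (by norm_num) hθ0 _).trans (pow_le_pow_of_le_one hθ' hθ1.le hc)
    have h4 : (0 : ℝ) ≤ (3 / 4) ^ S.card := by positivity
    have h5 : 0 ≤ ((k : ℝ) + 1) * θ ^ J := by positivity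
    push_cast
    nlinarith

end Pool.Agent.Q163.PM
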