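import Pool.Agent.Q163.PM.AE

/-! Joint patterns of convolutions. -/

set_option autoImplicit false

namespace Pool.Agent.Q163.PM

open Finset MeasureTheory ProbabilityTheory Filter Topology Pool.Agent.Q163.RP Pool.Agent.Q163.RX

variable {M : ℕ}

/-- the convolution of a sequence with the random sequence -/
def cv (q : (ℕ → Bool) → ℕ → ZMod M) (A : ℕ → ZMod M) (n : ℕ) (ω : ℕ → Bool) : ZMod M :=
  ∑ j ∈ range (n + 1), A (n - j) * q ω j

/-- the combination of shifts of several sequences -/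
def wc {ι : Type*} [Fintype ι] (A : ι → ℕ → ZMod M) (H : ℕ) (c : ι → Fin (H + 1) → ZMod M) (x : ℕ) : ZMod M :=
  ∑ τ, ∑ i : Fin (H + 1), if H - (i : ℕ) ≤ x then c τ i * A τ (x - (H - (i : ℕ))) else 0

lemma comb {ι : Type*} [Fintype ι] (q : (ℕ → Bool) → ℕ → ZMod M) (A : ι → ℕ → ZMod M) (H : ℕ)
    (c : ι → Fin (H + 1) → ZMod M) (n : ℕ) (ω : ℕ → Bool) :
    ∑ τ, ∑ i : Fin (H + 1), c τ i * cv q (A τ) (n + i) ω =
      ∑ j ∈ range (n + H + 1), wc A H c (n + H - j) * q ω j := by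
  have h1 : ∀ (τ : ι) (i : Fin (H + 1)), c τ i * cv q (A τ) (n + i) ω =
      ∑ j ∈ range (n + H + 1), (if H - (i : ℕ) ≤ n + H - j then c τ i * A τ (n + H - j - (H - (i : ℕ))) else 0) *
        q ω j := by
    intro τ i
    have hi : (i : ℕ) ≤ H := by omega
    unfold cv
    have e1 : n + H + 1 = (n + i + 1) + (H - i) := by omega
    rw [e1, sum_range_add _ (n + i + 1), mul_sum]
    have e2 : ∑ x ∈ range (H - (i : ℕ)), (if H - (i : ℕ) ≤ n + H - (n + i + 1 + x) then
        c τ i * A τ (n + H - (n + i + 1 + x) - (H - (i : ℕ))) else 0) * q ω (n + i + 1 + x) = 0 := by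
      refine sum_eq_zero fun x hx => ?_
      have := mem_range.1 hx
      rw [if_neg (by omega), zero_mul]
    rw [e2, add_zero]
    refine sum_congr rfl fun x hx => ?_
    have := mem_range.1 hx
    rw [if_pos (by omega), mul_assoc]
    congr 3
    omega
  simp_rw [h1]
  unfold wc
  simp_rw [sum_mul]
  rw [sum_comm]
  rw [sum_comm]
  conv_rhs => rw [sum_comm]
  refine sum_congr rfl fun τ _ => ?_
  rw [sum_comm]

lemma top_eq (q : (ℕ → Bool) → ℕ → ZMod M) (w : ℕ → ZMod M) (v m : ℕ) (hv : ∀ x < v, w x = 0) (hm : v ≤ m)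
    (ω : ℕ → Bool) : ∑ j ∈ range (m + 1), w (m - j) * q ω j = L q (fun j => w (m - j)) (m - v) ω := by
  unfold L
  have e1 : m + 1 = (m - v + 1) + v := by omega
  rw [e1, sum_range_add _ (m - v + 1)]
  have e2 : ∑ x ∈ range v, w (m - (m - v + 1 + x)) * q ω (m - v + 1 + x) = 0 := by
    refine sum_eq_zero fun x hx => ?_
    have := mem_range.1 hx
    rw [hv _ (by omega), zero_mul]
  rw [e2, add_zero]

lemma er_pos {N : ℕ} (h : 1 ≤ N) : 0 < er N := by
  have h1 := er_one h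
  have h2 : 0 < Real.log 2 := Real.log_pos (by norm_num)
  have h3 : 0 < Real.log 2 ^ 2 := by positivity
  linarith

lemma shift_bound (x : ℕ → ℝ) (hx : ∀ j, |x j| ≤ 1) (v : ℕ)
    (h : ∃ C : ℝ, ∀ N : ℕ, |∑ j ∈ range N, x (v + j)| ≤ C * er N) :
    ∃ C : ℝ, ∀ N : ℕ, |∑ j ∈ range N, x j| ≤ C * er N := by
  obtain ⟨C, hC⟩ := h
  have hl : 0 < Real.log 2 ^ 2 := by
    have : 0 < Real.log 2 := Real.log_pos (by norm_num)
    positivity
  refine ⟨|C| + v / Real.log 2 ^ 2, fun N => ?_⟩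
  rcases Nat.eq_zero_or_pos N with rfl | hN
  · simp [er]
  have hv0 : (0 : ℝ) ≤ v := Nat.cast_nonneg _
  have h1 : (v : ℝ) ≤ v / Real.log 2 ^ 2 * er N := by
    rw [div_mul_eq_mul_div, le_div_iff₀ hl]
    exact mul_le_mul_of_nonneg_left (er_one hN) hv0
  have h0 := er_nonneg N
  rcases le_or_gt N v with h | h
  · have h2 : |∑ j ∈ range N, x j| ≤ v := by
      refine (abs_sum_le_sum_abs _ _).trans ((sum_le_sum fun j _ => hx j).trans ?_)
      rw [sum_const, card_range, nsmul_eq_mul, mul_one]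
      exact_mod_cast h
    have h3 := mul_nonneg (abs_nonneg C) h0
    linarith
  · obtain ⟨K, rfl⟩ : ∃ K, N = v + K := ⟨N - v, by omega⟩
    rw [sum_range_add _ v]
    have h2 : |∑ j ∈ range v, x j| ≤ v := by
      refine (abs_sum_le_sum_abs _ _).trans ((sum_le_sum fun j _ => hx j).trans ?_)
      simp
    have h3 : |∑ j ∈ range K, x (v + j)| ≤ |C| * er (v + K) := by
      refine (hC K).trans ?_
      refine (mul_le_mul_of_nonneg_right (le_abs_self C) (er_nonneg K)).trans ?_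
      exact mul_le_mul_of_nonneg_left (er_mono (by omega)) (abs_nonneg C)
    have h4 := abs_add_le (∑ j ∈ range v, x j) (∑ j ∈ range K, x (v + j))
    linarith

variable [NeZero M]

lemma ps_sum {κ : Type*} (s : Finset κ) (f : κ → ZMod M) : ps (∑ i ∈ s, f i) = ∏ i ∈ s, ps (f i) := by
  classical
  induction s using Finset.induction_on with
  | empty => simp [ps_zero]
  | insert a s ha ih => rw [sum_insert ha, prod_insert ha, ps_add, ih]

lemma ind_eq {κ : Type*} [Fintype κ] [DecidableEq κ] (Y e : κ → ZMod M) :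
    ∑ c : κ → ZMod M, ps (∑ i, c i * Y i + -∑ i, c i * e i) =
      if Y = e then ((M : ℂ) ^ Fintype.card κ) else 0 := by
  classical
  have h1 : ∀ c : κ → ZMod M, ps (∑ i, c i * Y i + -∑ i, c i * e i) =
      ∏ i, ps (c i * (Y i - e i)) := by
    intro c
    have h2 : ∑ i, c i * Y i + -∑ i, c i * e i = ∑ i, c i * (Y i - e i) := by
      rw [← sub_eq_add_neg, ← sum_sub_distrib]
      exact sum_congr rfl fun i _ => by ring
    rw [h2, ps_sum]
  simp_rw [h1]
  have h3 := prod_univ_sum (fun _ : κ => (univ : Finset (ZMod M))) fun i x => ps (x * (Y i - e i))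
  rw [Fintype.piFinset_univ] at h3
  rw [← h3]
  have h4 : ∀ i, ∑ x : ZMod M, ps (x * (Y i - e i)) = if Y i = e i then (M : ℂ) else 0 := by
    intro i
    have h5 := AddChar.sum_mulShift (R' := ℂ) (Y i - e i) (ZMod.isPrimitive_stdAddChar M)
    unfold ps
    rw [h5, ZMod.card]
    by_cases h : Y i = e i
    · rw [if_pos (by rw [h, sub_self]), if_pos h]
    · rw [if_neg (sub_ne_zero.2 h), if_neg h]
      simp
  simp_rw [h4]
  by_cases h : Y = e
  · rw [if_pos h]
    rw [prod_congr rfl fun i _ => if_pos (congrFun h i)]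
    rw [prod_const, card_univ]
  · rw [if_neg h]
    obtain ⟨i, hi⟩ := Function.ne_iff.1 h
    exact prod_eq_zero (mem_univ i) (if_neg hi)

/-- patterns from characters -/
theorem pat_det {κ : Type*} [Fintype κ] [DecidableEq κ] (Y : ℕ → κ → ZMod M)
    (h : ∀ c : κ → ZMod M, c ≠ 0 → ∀ z : ZMod M, ∃ C : ℝ, ∀ N : ℕ,
      |∑ j ∈ range N, (ps (∑ i, c i * Y j i + z)).re| ≤ C * er N) (e : κ → ZMod M) :
    ∃ C : ℝ, ∀ N : ℕ,
      |(((range N).filter fun j => Y j = e).card : ℝ) - N / (M : ℝ) ^ Fintype.card κ| ≤ C * er N := by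
  classical
  have hMpos : (0 : ℝ) < (M : ℝ) ^ Fintype.card κ := by
    have : 0 < M := Nat.pos_of_ne_zero (NeZero.ne M)
    positivity
  have h' : ∀ c : κ → ZMod M, ∃ C : ℝ, c ≠ 0 → ∀ N : ℕ,
      |∑ j ∈ range N, (ps (∑ i, c i * Y j i + -∑ i, c i * e i)).re| ≤ C * er N := by
    intro c
    by_cases hc : c = 0
    · exact ⟨0, fun h => absurd hc h⟩
    · obtain ⟨C, hC⟩ := h c hc (-∑ i, c i * e i)
      exact ⟨C, fun _ => hC⟩
  choose C hC using h'
  refine ⟨(∑ c ∈ univ.erase (0 : κ → ZMod M), C c) / (M : ℝ) ^ Fintype.card κ, fun N => ?_⟩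
  have h1 : (((range N).filter fun j => Y j = e).card : ℝ) * (M : ℝ) ^ Fintype.card κ =
      ∑ c : κ → ZMod M, ∑ j ∈ range N, (ps (∑ i, c i * Y j i + -∑ i, c i * e i)).re := by
    rw [sum_comm]
    have h2 : ∀ j, ∑ c : κ → ZMod M, (ps (∑ i, c i * Y j i + -∑ i, c i * e i)).re =
        if Y j = e then (M : ℝ) ^ Fintype.card κ else 0 := by
      intro j
      rw [← Complex.re_sum, ind_eq]
      split_ifs
      · rw [← Complex.ofReal_natCast, ← Complex.ofReal_pow, Complex.ofReal_re]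
      · simp
    simp_rw [h2]
    rw [← sum_filter, sum_const, nsmul_eq_mul]
  have h3 : ∑ c : κ → ZMod M, ∑ j ∈ range N, (ps (∑ i, c i * Y j i + -∑ i, c i * e i)).re =
      N + ∑ c ∈ univ.erase (0 : κ → ZMod M), ∑ j ∈ range N, (ps (∑ i, c i * Y j i + -∑ i, c i * e i)).re := by
    rw [← add_sum_erase _ _ (mem_univ (0 : κ → ZMod M))]
    congr 1
    simp [ps_zero]
  have h4 : (((range N).filter fun j => Y j = e).card : ℝ) - N / (M : ℝ) ^ Fintype.card κ =
      (∑ c ∈ univ.erase (0 : κ → ZMod M), ∑ j ∈ range N, (ps (∑ i, c i * Y j i + -∑ i, c i * e i)).re) /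
        (M : ℝ) ^ Fintype.card κ := by
    rw [eq_div_iff hMpos.ne', sub_mul, h1, h3, div_mul_cancel₀ _ hMpos.ne']
    ring
  rw [h4, abs_div, abs_of_pos hMpos, div_mul_eq_mul_div]
  refine div_le_div_of_nonneg_right ?_ hMpos.le
  rw [sum_mul]
  refine (abs_sum_le_sum_abs _ _).trans (sum_le_sum fun c hc => hC c (mem_erase.1 hc).1 N)

variable {T : Set ℕ} {q : (ℕ → Bool) → ℕ → ZMod M}

/-- **Joint patterns.** -/
theorem joint {ι : Type*} [Fintype ι] [DecidableEq ι] (hq : Fam M T q) (hT : Rich T) (A : ι → ℕ → ZMod M) (H : ℕ)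
    (hA : ∀ c : ι → Fin (H + 1) → ZMod M, c ≠ 0 → ∃ x, wc A H c x ≠ 0) (a : ℕ → ℕ) (ha : StrictMono a) :
    ∀ᵐ ω ∂cm, ∀ e : ι → Fin (H + 1) → ZMod M, ∃ C : ℝ, ∀ N : ℕ,
      |(((range N).filter fun j => ∀ τ, ∀ i : Fin (H + 1), cv q (A τ) (a j + (i : ℕ)) ω = e τ i).card : ℝ) -
        N / (M : ℝ) ^ (Fintype.card ι * (H + 1))| ≤ C * er N := by
  classical
  have h1 : ∀ᵐ ω ∂cm, ∀ c : ι → Fin (H + 1) → ZMod M, ∀ z : ZMod M, c ≠ 0 → ∃ C : ℝ, ∀ N : ℕ,
      |∑ j ∈ range N, (ps (∑ τ, ∑ i : Fin (H + 1), c τ i * cv q (A τ) (a j + (i : ℕ)) ω + z)).re| ≤ C * er N := by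
    rw [ae_all_iff]
    intro c
    rw [ae_all_iff]
    intro z
    by_cases hc : c = 0
    · exact Eventually.of_forall fun ω h => absurd hc h
    obtain ⟨v, hv, hvmin⟩ : ∃ v, wc A H c v ≠ 0 ∧ ∀ x < v, wc A H c x = 0 := by
      refine ⟨Nat.find (hA c hc), Nat.find_spec (hA c hc), fun x hx => ?_⟩
      by_contra h
      exact Nat.find_min (hA c hc) hx h
    have hva : ∀ j, v + j ≤ a (v + j) := fun j => ha.id_le _
    have h2 := signs_ae hq hT (fun j => a (v + j) + H - v) (fun i j hij => by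
      have h3 := ha (by omega : v + i < v + j)
      have h4 := hva i
      simp only
      omega) (fun j x => wc A H c (a (v + j) + H - x)) (fun j => by
      have h4 := hva j
      rw [Nat.sub_sub_self (by omega)]
      exact hv) (fun _ => z)
    filter_upwards [h2] with ω hω _
    refine shift_bound _ (fun j => re_abs _) v ?_
    obtain ⟨C, hC⟩ := hω
    refine ⟨C, fun N => ?_⟩
    refine le_trans (le_of_eq ?_) (hC N)
    congr 1
    refine sum_congr rfl fun j _ => ?_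
    have h4 := hva j
    rw [comb, top_eq q _ v (a (v + j) + H) hvmin (by omega)]
  filter_upwards [h1] with ω hω e
  have h2 := pat_det (κ := ι × Fin (H + 1)) (fun j p => cv q (A p.1) (a j + (p.2 : ℕ)) ω) (fun c hc z => by
    have hc' : (fun τ i => c (τ, i)) ≠ (0 : ι → Fin (H + 1) → ZMod M) := by
      intro h
      apply hc
      funext p
      exact congrFun (congrFun h p.1) p.2
    obtain ⟨C, hC⟩ := hω (fun τ i => c (τ, i)) z hc'
    refine ⟨C, fun N => ?_⟩
    refine le_trans (le_of_eq ?_) (hC N)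
    congr 1
    refine sum_congr rfl fun j _ => ?_
    rw [Fintype.sum_prod_type]) (fun p => e p.1 p.2)
  obtain ⟨C, hC⟩ := h2
  refine ⟨C, fun N => ?_⟩
  refine le_trans (le_of_eq ?_) (hC N)
  rw [Fintype.card_prod, Fintype.card_fin]
  congr 4
  refine filter_congr fun j _ => ?_
  rw [funext_iff, Prod.forall]

end Pool.Agent.Q163.PM
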